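import Mathlib

/-!
# LNA.Basic: associators and commutators in nonassociative rings
-/

set_option autoImplicit false
set_option linter.unusedSectionVars false

namespace Pool.Agent.Lib.LNA

/-- the associator -/
def as {R : Type*} [NonUnitalNonAssocRing R] (x y z : R) : R := x * y * z - x * (y * z)

/-- the commutator -/
def cm {R : Type*} [NonUnitalNonAssocRing R] (x y : R) : R := x * y - y * x

/-- alternative ring -/
def Alt (R : Type*) [NonUnitalNonAssocRing R] : Prop :=
  ∀ x y : R, x * x * y = x * (x * y) ∧ y * x * x = y * (x * x)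

/-- Jordan identities -/
def Jor (R : Type*) [NonUnitalNonAssocRing R] : Prop :=
  (∀ x y : R, x * y = y * x) ∧ ∀ x y : R, x * x * y * x = x * x * (y * x)

/-- `w` commutes and associates with everything -/
def Ctr {R : Type*} [NonUnitalNonAssocRing R] (w : R) : Prop :=
  ∀ x y : R, w * x = x * w ∧ w * x * y = w * (x * y) ∧ x * w * y = x * (w * y) ∧
    x * y * w = x * (y * w)

variable {R : Type*} [NonUnitalNonAssocRing R]

section lin

theorem as_add_left (x x' y z : R) : as (x + x') y z = as x y z + as x' y z := by
  unfold as; simp only [add_mul]; abel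

theorem as_add_mid (x y y' z : R) : as x (y + y') z = as x y z + as x y' z := by
  unfold as; simp only [add_mul, mul_add]; abel

theorem as_add_right (x y z z' : R) : as x y (z + z') = as x y z + as x y z' := by
  unfold as; simp only [mul_add]; abel

theorem as_sub_left (x x' y z : R) : as (x - x') y z = as x y z - as x' y z := by
  unfold as; simp only [sub_mul]; abel

theorem as_sub_mid (x y y' z : R) : as x (y - y') z = as x y z - as x y' z := by
  unfold as; simp only [sub_mul, mul_sub]; abel

theorem as_sub_right (x y z z' : R) : as x y (z - z') = as x y z - as x y z' := by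
  unfold as; simp only [mul_sub]; abel

theorem as_neg_left (x y z : R) : as (-x) y z = - as x y z := by
  unfold as; simp only [neg_mul]; abel

theorem as_neg_mid (x y z : R) : as x (-y) z = - as x y z := by
  unfold as; simp only [neg_mul, mul_neg]; abel

theorem as_neg_right (x y z : R) : as x y (-z) = - as x y z := by
  unfold as; simp only [mul_neg]; abel

@[simp] theorem as_zero_left (y z : R) : as 0 y z = 0 := by unfold as; simp

@[simp] theorem as_zero_mid (x z : R) : as x 0 z = 0 := by unfold as; simp

@[simp] theorem as_zero_right (x y : R) : as x y 0 = 0 := by unfold as; simp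

theorem cm_swap (x y : R) : cm x y = - cm y x := by unfold cm; abel

theorem mul_assoc_of_as {x y z : R} (h : as x y z = 0) : x * y * z = x * (y * z) :=
  sub_eq_zero.1 h

/-- Teichmueller identity -/
theorem teich (w x y z : R) :
    as (w * x) y z - as w (x * y) z + as w x (y * z) = w * as x y z + as w x y * z := by
  unfold as
  simp only [mul_sub, sub_mul]
  abel

/-- derivation rule for the commutator -/
theorem cm_mul (a z v : R) :
    cm (a * z) v = a * cm z v + cm a v * z + as a z v + as v a z - as a v z := by
  unfold cm as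
  simp only [mul_sub, sub_mul]
  abel

end lin

section alt

theorem alt_left (h : Alt R) (x y : R) : as x x y = 0 := sub_eq_zero.2 (h x y).1

theorem alt_right (h : Alt R) (x y : R) : as y x x = 0 := sub_eq_zero.2 (h x y).2

theorem alt12 (h : Alt R) (x y z : R) : as x y z = - as y x z := by
  have e := alt_left h (x + y) z
  rw [as_add_left, as_add_mid, as_add_mid, alt_left h x z, alt_left h y z] at e
  simp only [zero_add, add_zero] at e
  exact eq_neg_of_add_eq_zero_left e

theorem alt23 (h : Alt R) (x y z : R) : as x y z = - as x z y := by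
  have e := alt_right h (y + z) x
  rw [as_add_right, as_add_mid, as_add_mid, alt_right h y x, alt_right h z x] at e
  simp only [zero_add, add_zero] at e
  rw [add_comm] at e
  exact eq_neg_of_add_eq_zero_left e

theorem altc (h : Alt R) (x y z : R) : as x y z = as y z x := by
  rw [alt12 h x y z, alt23 h y x z, neg_neg]

theorem alt13 (h : Alt R) (x y z : R) : as x y z = - as z y x := by
  rw [altc h x y z, altc h y z x, alt23 h z x y]

theorem alt_flex (h : Alt R) (x y : R) : as x y x = 0 := by
  rw [alt12 h, alt_right h, neg_zero]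

/-- the Kleinfeld function -/
def kf (w x y z : R) : R := as (w * x) y z - x * as w y z - as x y z * w

theorem kf34 (h : Alt R) (w x y z : R) : kf w x y z = - kf w x z y := by
  unfold kf
  rw [alt23 h (w * x) y z, alt23 h w y z, alt23 h x y z]
  simp only [mul_neg, neg_mul]
  abel

theorem teich_alt (h : Alt R) (w x y z : R) :
    as (w * x) y z - as (x * y) z w + as (y * z) w x = w * as x y z + as w x y * z := by
  rw [← teich w x y z, altc h w (x * y) z, altc h w x (y * z), altc h x (y * z) w]

theorem kf_rot (h : Alt R) (w x y z : R) : kf z w x y = - kf w x y z := by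
  have e1 := teich_alt h w x y z
  have e2 := teich_alt h x y z w
  have e3 : w * as z x y = w * as x y z := by rw [altc h z x y]
  have e4 : x * as w y z = x * as y z w := by rw [altc h w y z]
  unfold kf
  linear_combination (norm := abel) e1 + e2 - e3 - e4

theorem kf_rot2 (h : Alt R) (w x y z : R) : kf y z w x = kf w x y z := by
  rw [kf_rot h z w x y, kf_rot h w x y z, neg_neg]

theorem kf12 (h : Alt R) (w x y z : R) : kf x w y z = - kf w x y z := by
  rw [← kf_rot2 h x w y z, kf34 h y z x w, kf_rot2 h w x y z]

theorem kf_three (h : Alt R) (w x y z : R) :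
    kf w x y z + kf w x y z + kf w x y z = w * as x y z - as x y z * w
      - (x * as y z w - as y z w * x) + (y * as z w x - as z w x * y)
      - (z * as w x y - as w x y * z) := by
  have e1 := teich_alt h w x y z
  have e2 := kf_rot h x y z w
  have e3 := kf_rot2 h w x y z
  have e4 : as w y z = as y z w := altc h w y z
  have e5 : as x z w = as z w x := altc h x z w
  have e6 : as y w x = as w x y := altc h y w x
  have f1 : kf w x y z = as (w * x) y z - x * as y z w - as x y z * w := by
    unfold kf; rw [e4]
  have f2 : kf x y z w = as (x * y) z w - y * as z w x - as y z w * x := by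
    unfold kf; rw [e5]
  have f3 : kf y z w x = as (y * z) w x - z * as w x y - as z w x * y := by
    unfold kf; rw [e6]
  linear_combination (norm := abel) e1 + f1 - f2 + f3 + e2 - e3

theorem kf_two (h : Alt R) (w x y z : R) :
    kf w x y z + kf w x y z = as (cm w x) y z - x * as w y z - as x y z * w
      + w * as x y z + as w y z * x := by
  have e1 := kf12 h w x y z
  have f1 : kf w x y z = as (w * x) y z - x * as w y z - as x y z * w := rfl
  have f2 : kf x w y z = as (x * w) y z - w * as x y z - as w y z * x := rfl
  have f3 : as (cm w x) y z = as (w * x) y z - as (x * w) y z := as_sub_left _ _ _ _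
  linear_combination (norm := abel) f1 - f2 + e1 - f3

theorem kf_eq (h : Alt R) (w x y z : R) :
    kf w x y z = as (cm w x) y z + as (cm y z) w x := by
  have e1 := kf_two h w x y z
  have e2 := kf_two h y z w x
  have e3 := kf_rot2 h w x y z
  have e4 := kf_three h w x y z
  have e5 : as w y z = as y z w := altc h w y z
  have e6 : as y w x = as w x y := altc h y w x
  rw [e5] at e1
  rw [e6, e3] at e2
  linear_combination (norm := abel) e1 + e2 - e4

theorem alt_mid (h : Alt R) (x c y : R) : as x (x * c) y = as x c y * x := by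
  have e1 : kf x c x y = 0 := by
    rw [kf34 h, kf_rot h c y x x]
    unfold kf
    rw [alt_right h, alt_right h, alt_right h]
    simp
  have e2 : kf x c x y = as (x * c) x y - c * as x x y - as c x y * x := rfl
  rw [alt_left h, mul_zero, sub_zero, e1] at e2
  rw [alt12 h x (x * c) y, alt12 h x c y, neg_mul, ← sub_eq_zero.1 e2.symm]

end alt

section ctr

theorem Ctr.comm {w : R} (h : Ctr w) (x : R) : w * x = x * w := (h x x).1

theorem Ctr.assoc_left {w : R} (h : Ctr w) (x y : R) : w * x * y = w * (x * y) := (h x y).2.1

theorem Ctr.assoc_mid {w : R} (h : Ctr w) (x y : R) : x * w * y = x * (w * y) := (h x y).2.2.1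

theorem Ctr.assoc_right {w : R} (h : Ctr w) (x y : R) : x * y * w = x * (y * w) := (h x y).2.2.2

/-- a central factor moves out of a product -/
theorem Ctr.mul_left {w : R} (h : Ctr w) (x y : R) : x * (w * y) = w * (x * y) := by
  rw [← h.assoc_mid, ← h.comm, h.assoc_left]

theorem Ctr.as_mul_left {w : R} (h : Ctr w) (c x y : R) : as (w * c) x y = w * as c x y := by
  unfold as
  rw [h.assoc_left, h.assoc_left, h.assoc_left, mul_sub]

theorem Ctr.as_left {w : R} (h : Ctr w) (x y : R) : as w x y = 0 := by
  unfold as; rw [h.assoc_left, sub_self]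

theorem Ctr.neg {w : R} (h : Ctr w) : Ctr (-w) := by
  intro x y
  obtain ⟨h1, h2, h3, h4⟩ := h x y
  refine ⟨?_, ?_, ?_, ?_⟩
  · rw [neg_mul, mul_neg, h1]
  · rw [neg_mul, neg_mul, neg_mul, h2]
  · rw [neg_mul, mul_neg, mul_neg, neg_mul, h3]
  · rw [mul_neg, mul_neg, mul_neg, h4]

theorem Ctr.add {w w' : R} (h : Ctr w) (h' : Ctr w') : Ctr (w + w') := by
  intro x y
  obtain ⟨h1, h2, h3, h4⟩ := h x y
  obtain ⟨k1, k2, k3, k4⟩ := h' x y
  refine ⟨?_, ?_, ?_, ?_⟩
  · rw [add_mul, mul_add, h1, k1]
  · rw [add_mul, add_mul, add_mul, h2, k2]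
  · rw [add_mul, mul_add, mul_add, add_mul, h3, k3]
  · rw [mul_add, mul_add, mul_add, h4, k4]

theorem ctr_alt (h : Alt R) {w : R} (h1 : ∀ x, cm w x = 0) (h2 : ∀ x y, as w x y = 0) :
    Ctr w := by
  intro x y
  refine ⟨sub_eq_zero.1 (h1 x), sub_eq_zero.1 (h2 x y), sub_eq_zero.1 ?_, sub_eq_zero.1 ?_⟩
  · change as x w y = 0
    rw [alt12 h, h2, neg_zero]
  · change as x y w = 0
    rw [altc h, altc h, h2]

theorem ctr_comm (h : ∀ x y : R, x * y = y * x) {w : R} (h2 : ∀ x y, as w x y = 0) :
    Ctr w := by
  have h3 : ∀ x y, w * x * y = w * (x * y) := fun x y => sub_eq_zero.1 (h2 x y)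
  intro x y
  refine ⟨h _ _, h3 x y, ?_, ?_⟩
  · rw [h x w, h3, h w y, ← h (y * w) x, h y w, h3, h y x]
  · rw [h (x * y) w, h y w, ← h (w * y) x, h3, h y x]

end ctr

section nil

/-- last commutators have square zero -/
theorem nil_cm_alt (h : Alt R) {v : R} (h1 : ∀ a, Ctr (cm v a)) (a : R) :
    cm v a * cm v a = 0 := by
  have e1 : cm (a * v) v = cm a v * v := by
    rw [cm_mul, alt_flex h v a, alt_right h v a]
    simp [cm]
  have c1 : Ctr (cm a v) := by
    rw [cm_swap]; exact (h1 a).neg
  have c2 : Ctr (cm a v * v) := by
    rw [← e1, cm_swap]; exact (h1 _).neg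
  have e2 := c2.comm a
  rw [c1.assoc_left, c1.mul_left] at e2
  have e3 : cm a v * cm v a = 0 := by
    unfold cm at e2 ⊢
    rw [mul_sub, e2, sub_self]
  rw [cm_swap a v, neg_mul] at e3
  exact neg_eq_zero.1 e3

/-- last associators have square zero -/
theorem nil_as_alt (h : Alt R) {v : R} (h1 : ∀ a, Ctr (cm v a)) (h2 : ∀ a b, Ctr (as v a b))
    (a b : R) : as v a b * as v a b = 0 := by
  have hz : ∀ a c, Ctr (as a v c) := by
    intro a c
    rw [alt12 h]; exact (h2 a c).neg
  have e1 : ∀ a c, kf a c v c = as (a * c) v c - c * as a v c := by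
    intro a c
    unfold kf
    rw [alt_flex h c v, zero_mul, sub_zero]
  have e2 : ∀ a c, kf a c v c = as (cm a c) v c := by
    intro a c
    rw [kf_eq h, (h1 c).as_left, add_zero]
  have hC : ∀ a c, Ctr (c * as a v c) := by
    intro a c
    have e : c * as a v c = as (a * c) v c + - as (cm a c) v c := by
      rw [← e2, e1]; abel
    rw [e]
    exact (hz _ _).add (hz _ _).neg
  have e3 : ∀ a c, as a v c * as a v c = 0 := by
    intro a c
    have e4 := (hC a c).as_left v a
    rw [← (hz a c).comm, (hz a c).as_mul_left, alt13 h c v a, mul_neg] at e4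
    exact neg_eq_zero.1 e4
  have e5 := e3 a b
  rw [alt12 h a v b, neg_mul, mul_neg, neg_neg] at e5
  exact e5

end nil

end Pool.Agent.Lib.LNA
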