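import Pool.Agent.Lib.LNA.Quot

/-!
# LNA.Fin: Lie nilpotent algebras generated by finitely many nilpotent elements are
finite-dimensional
-/

set_option autoImplicit false
set_option linter.unusedSectionVars false

namespace Pool.Agent.Lib.LNA

variable {F : Type*} [Field F] {R : Type*} [NonUnitalNonAssocRing R] [Module F R]
  [IsScalarTower F R R] [SMulCommClass F R R]

/-- `u` and the family `ξ` generate `R` -/
def Gen (F : Type*) [Field F] {R : Type*} [NonUnitalNonAssocRing R] [Module F R] {ι : Type*}
    (u : R) (ξ : ι → R) : Prop :=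
  ∀ N : Submodule F R, u ∈ N → (∀ i, ξ i ∈ N) → (∀ x ∈ N, ∀ y ∈ N, x * y ∈ N) → N = ⊤

/-- the left ideal generated by a set -/
def lid (F : Type*) [Field F] {R : Type*} [NonUnitalNonAssocRing R] [Module F R] (T : Set R) :
    Submodule F R :=
  Submodule.span F {x | ∃ t ∈ T, ∃ r, x = r * t}

omit [IsScalarTower F R R] [SMulCommClass F R R] in
theorem lid_mono {T T' : Set R} (h : T ⊆ T') : lid F T ≤ lid F T' :=
  Submodule.span_mono (fun _ ⟨t, ht, r, hr⟩ => ⟨t, h ht, r, hr⟩)

omit [IsScalarTower F R R] [SMulCommClass F R R] in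
theorem mem_lid {T : Set R} {t : R} (ht : t ∈ T) (r : R) : r * t ∈ lid F T :=
  Submodule.subset_span ⟨t, ht, r, rfl⟩

omit [IsScalarTower F R R] [SMulCommClass F R R] in
theorem lid_fin {T : Set R} {x : R} (hx : x ∈ lid F T) :
    ∃ T' : Finset R, (T' : Set R) ⊆ T ∧ x ∈ lid F (T' : Set R) := by
  classical
  refine Submodule.span_induction ?_ ?_ ?_ ?_ hx
  · rintro y ⟨t, ht, r, rfl⟩
    exact ⟨{t}, by simpa using ht, mem_lid (by simp) r⟩
  · exact ⟨∅, by simp, Submodule.zero_mem _⟩
  · rintro y z - - ⟨T1, h1, h2⟩ ⟨T2, h3, h4⟩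
    refine ⟨T1 ∪ T2, ?_, ?_⟩
    · rw [Finset.coe_union]; exact Set.union_subset h1 h3
    · rw [Finset.coe_union]
      exact Submodule.add_mem _ (lid_mono Set.subset_union_left h2)
        (lid_mono Set.subset_union_right h4)
  · rintro c y - ⟨T1, h1, h2⟩
    exact ⟨T1, h1, Submodule.smul_mem _ _ h2⟩

theorem lid_ideal {T : Set R} (hT : ∀ t ∈ T, Ctr t) : IsIdeal (lid F T) := by
  constructor
  · intro a w hw
    refine Submodule.span_induction ?_ ?_ ?_ ?_ hw
    · rintro y ⟨t, ht, r, rfl⟩
      rw [← (hT t ht).assoc_right]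
      exact mem_lid ht _
    · rw [mul_zero]; exact Submodule.zero_mem _
    · rintro y z - - h1 h2
      rw [mul_add]; exact Submodule.add_mem _ h1 h2
    · rintro c y - h1
      rw [mul_smul_comm]; exact Submodule.smul_mem _ _ h1
  · intro a w hw
    refine Submodule.span_induction ?_ ?_ ?_ ?_ hw
    · rintro y ⟨t, ht, r, rfl⟩
      rw [(hT t ht).assoc_mid, (hT t ht).comm, ← (hT t ht).assoc_right]
      exact mem_lid ht _
    · rw [zero_mul]; exact Submodule.zero_mem _
    · rintro y z - - h1 h2
      rw [add_mul]; exact Submodule.add_mem _ h1 h2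
    · rintro c y - h1
      rw [smul_mul_assoc]; exact Submodule.smul_mem _ _ h1

/-- one central nilpotent element -/
theorem one_step {u : R} (hu : One u) {t : R} (ht : Ctr t) (V : Submodule F R)
    (hV : ∀ r : R, ∃ v ∈ V, ∃ r', r = v + r' * t) (k : ℕ) :
    ∀ r : R, ∃ v ∈ ⨆ i : Fin k, V.map (LinearMap.mulRight F (pw F u t i)), ∃ r',
      r = v + r' * pw F u t k := by
  induction k with
  | zero =>
    intro r
    exact ⟨0, Submodule.zero_mem _, r, by rw [pw_zero, hu.right, zero_add]⟩
  | succ k ih =>
    intro r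
    obtain ⟨v, hv, r', hr⟩ := ih r
    obtain ⟨v', hv', r'', hr'⟩ := hV r'
    refine ⟨v + v' * pw F u t k, ?_, r'', ?_⟩
    · refine Submodule.add_mem _ ?_ ?_
      · have : (⨆ i : Fin k, V.map (LinearMap.mulRight F (pw F u t i))) ≤
            ⨆ i : Fin (k + 1), V.map (LinearMap.mulRight F (pw F u t i)) := by
          refine iSup_le fun i => ?_
          exact le_iSup (fun i : Fin (k + 1) => V.map (LinearMap.mulRight F (pw F u t i)))
            i.castSucc
        exact this hv
      · refine Submodule.mem_iSup_of_mem (Fin.last k) ?_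
        exact ⟨v', hv', by simp⟩
    · rw [hr, hr', add_mul, ht.assoc_mid, ← pw_succ, add_assoc]

/-- Lemma G -/
theorem fin_of_lid {u : R} (hu : One u) (T : Finset R) :
    (∀ t ∈ T, Ctr t ∧ ∃ N, pw F u t N = 0) → ∀ S : Submodule F R, S.FG →
      S ⊔ lid F (T : Set R) = ⊤ → (⊤ : Submodule F R).FG := by
  classical
  induction T using Finset.induction_on with
  | empty =>
    intro _ S hS h
    have : lid F ((∅ : Finset R) : Set R) = ⊥ := by
      unfold lid
      rw [Submodule.span_eq_bot]
      rintro x ⟨t, ht, -⟩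
      simp at ht
    rw [this, sup_bot_eq] at h
    rw [← h]; exact hS
  | insert t T htT ih =>
    intro hT S hS h
    obtain ⟨ht, N, hN⟩ := hT t (Finset.mem_insert_self t T)
    set V : Submodule F R := S ⊔ lid F (T : Set R) with hVd
    have hV : ∀ r : R, ∃ v ∈ V, ∃ r', r = v + r' * t := by
      intro r
      have hr : r ∈ S ⊔ lid F ((insert t T : Finset R) : Set R) := by
        rw [h]; exact Submodule.mem_top
      obtain ⟨s, hs, j, hj, rfl⟩ := Submodule.mem_sup.1 hr
      have key : ∃ v ∈ V, ∃ r', j = v + r' * t := by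
        refine Submodule.span_induction ?_ ?_ ?_ ?_ hj
        · rintro y ⟨t', ht', r, rfl⟩
          rcases Finset.mem_insert.1 (Finset.mem_coe.1 ht') with rfl | h1
          · exact ⟨0, Submodule.zero_mem _, r, (zero_add _).symm⟩
          · exact ⟨r * t', Submodule.mem_sup_right (mem_lid h1 r), 0, by rw [zero_mul, add_zero]⟩
        · exact ⟨0, Submodule.zero_mem _, 0, by rw [zero_mul, add_zero]⟩
        · rintro y z - - ⟨v1, h1, r1, rfl⟩ ⟨v2, h2, r2, rfl⟩
          exact ⟨v1 + v2, Submodule.add_mem _ h1 h2, r1 + r2, by rw [add_mul]; abel⟩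
        · rintro c y - ⟨v1, h1, r1, rfl⟩
          exact ⟨c • v1, Submodule.smul_mem _ _ h1, c • r1, by
            rw [smul_add, smul_mul_assoc]⟩
      obtain ⟨v, hv, r', rfl⟩ := key
      exact ⟨s + v, Submodule.add_mem _ (Submodule.mem_sup_left hs) hv, r', by abel⟩
    have h2 := one_step (F := F) hu ht V hV N
    refine ih (fun t' ht' => hT t' (Finset.mem_insert_of_mem ht'))
      (⨆ i : Fin N, S.map (LinearMap.mulRight F (pw F u t i))) ?_ ?_
    · exact Submodule.fg_iSup _ (fun i => hS.map _)
    · rw [eq_top_iff]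
      intro r _
      obtain ⟨v, hv, r', hr⟩ := h2 r
      rw [hN, mul_zero, add_zero] at hr
      rw [hr]
      have h3 : (⨆ i : Fin N, V.map (LinearMap.mulRight F (pw F u t i))) ≤
          (⨆ i : Fin N, S.map (LinearMap.mulRight F (pw F u t i))) ⊔ lid F (T : Set R) := by
        refine iSup_le fun i => ?_
        rw [hVd, Submodule.map_sup]
        refine sup_le ?_ ?_
        · exact le_sup_of_le_left
            (le_iSup (fun i : Fin N => S.map (LinearMap.mulRight F (pw F u t i))) i)
        · refine le_sup_of_le_right ?_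
          rintro _ ⟨y, hy, rfl⟩
          rw [LinearMap.mulRight_apply]
          exact (lid_ideal (F := F)
            (fun t' ht' => (hT t' (Finset.mem_insert_of_mem ht')).1)).right _ _ hy
      exact h3 hv

theorem mul_closed {T : Set R} (hT : ∀ t ∈ T, Ctr t) {b : Set R}
    (hb : ∀ x ∈ b, ∀ y ∈ b, x * y ∈ Submodule.span F b ⊔ lid F T) :
    ∀ x ∈ Submodule.span F b ⊔ lid F T, ∀ y ∈ Submodule.span F b ⊔ lid F T,
      x * y ∈ Submodule.span F b ⊔ lid F T := by
  intro x hx y hy
  obtain ⟨s, hs, j, hj, rfl⟩ := Submodule.mem_sup.1 hx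
  obtain ⟨s', hs', j', hj', rfl⟩ := Submodule.mem_sup.1 hy
  have h1 : s * s' ∈ Submodule.span F b ⊔ lid F T := by
    refine Submodule.span_induction ?_ ?_ ?_ ?_ hs
    · intro x hx
      refine Submodule.span_induction ?_ ?_ ?_ ?_ hs'
      · intro y hy
        exact hb x hx y hy
      · rw [mul_zero]; exact Submodule.zero_mem _
      · intro y z _ _ h1 h2
        rw [mul_add]; exact Submodule.add_mem _ h1 h2
      · intro c y _ h1
        rw [mul_smul_comm]; exact Submodule.smul_mem _ _ h1
    · rw [zero_mul]; exact Submodule.zero_mem _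
    · intro y z _ _ h1 h2
      rw [add_mul]; exact Submodule.add_mem _ h1 h2
    · intro c y _ h1
      rw [smul_mul_assoc]; exact Submodule.smul_mem _ _ h1
  have hI := lid_ideal (F := F) hT
  rw [add_mul, mul_add, mul_add]
  refine Submodule.add_mem _ (Submodule.add_mem _ h1 ?_) (Submodule.add_mem _ ?_ ?_)
  · exact Submodule.mem_sup_right (hI.left _ _ hj')
  · exact Submodule.mem_sup_right (hI.right _ _ hj)
  · exact Submodule.mem_sup_right (hI.left _ _ hj')

omit [IsScalarTower F R R] in
theorem pw_three {u : R} (hu : One u) {t : R} (h : t * (t * t) = 0) : pw F u t 3 = 0 := by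
  rw [pw_succ, pw_succ, pw_succ, pw_zero, hu.right, h]

/-- the generators of the last term of the series are central and nilpotent -/
theorem last_ctr (h : Cls F R) {k : ℕ} (hs : ser F R (k + 2) = ⊥) {w : R}
    (hw : w ∈ ser F R (k + 1)) : Ctr w := by
  apply cls_ctr h
  · intro x
    have := cm_mem hw x
    rwa [hs, Submodule.mem_bot] at this
  · intro x y
    have := as_mem hw x y
    rwa [hs, Submodule.mem_bot] at this

theorem fin_dim (F : Type*) [Field F] (n : ℕ) : ∀ (R : Type*) [NonUnitalNonAssocRing R]
    [Module F R] [IsScalarTower F R R] [SMulCommClass F R R], Cls F R → ser F R n = ⊥ →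
    ∀ u : R, One u → ∀ (m : ℕ) (ξ : Fin m → R) (q : ℕ), (∀ i, pw F u (ξ i) q = 0) →
    Gen F u ξ → (⊤ : Submodule F R).FG := by
  classical
  rcases n with _ | n
  · intro R _ _ _ _ _ hs u _ m ξ q _ _
    have : (⊤ : Submodule F R) = ⊥ := hs
    rw [this]
    exact Submodule.fg_bot
  induction n with
  | zero =>
    intro R _ _ _ _ hC hs u hu m ξ q hq hG
    have hctr : ∀ w : R, Ctr w := by
      intro w
      apply cls_ctr hC
      · intro x
        have := cm_mem (F := F) (k := 0) (v := w) Submodule.mem_top x
        rwa [hs, Submodule.mem_bot] at this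
      · intro x y
        have := as_mem (F := F) (k := 0) (v := w) Submodule.mem_top x y
        rwa [hs, Submodule.mem_bot] at this
    refine fin_of_lid (F := F) hu (Finset.univ.image ξ) ?_ (Submodule.span F {u})
      (Submodule.fg_span (Set.finite_singleton u)) ?_
    · intro t ht
      obtain ⟨i, -, rfl⟩ := Finset.mem_image.1 ht
      exact ⟨hctr _, q, hq i⟩
    · apply hG
      · exact Submodule.mem_sup_left (Submodule.subset_span rfl)
      · intro i
        refine Submodule.mem_sup_right ?_
        have := mem_lid (F := F) (T := ((Finset.univ.image ξ : Finset R) : Set R)) (t := ξ i)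
          (by simp) u
        rwa [hu.left] at this
      · refine mul_closed (fun t _ => hctr t) ?_
        rintro x rfl y rfl
        rw [hu.left]
        exact Submodule.mem_sup_left (Submodule.subset_span rfl)
  | succ n ih =>
    intro R _ _ _ _ hC hs u hu m ξ q hq hG
    -- the generators of the last term
    set G : Set R := {w | ∃ v ∈ ser F R n, ∃ a, w = cm v a} ∪
      {w | ∃ v ∈ ser F R n, ∃ a b, w = as v a b} with hGd
    have hGs : ∀ w ∈ G, w ∈ ser F R (n + 1) := fun w hw => Submodule.subset_span hw
    have hGc : ∀ w ∈ G, Ctr w := fun w hw => last_ctr hC hs (hGs w hw)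
    have hGn : ∀ w ∈ G, pw F u w 3 = 0 := by
      rintro w (⟨v, hv, a, rfl⟩ | ⟨v, hv, a, b, rfl⟩)
      · exact pw_three hu (cls_nil_cm hC (fun a => last_ctr hC hs (cm_mem hv a)) a)
      · exact pw_three hu (cls_nil_as hC (fun a => last_ctr hC hs (cm_mem hv a))
          (fun a b => last_ctr hC hs (as_mem hv a b)) a b)
    set W : Submodule F R := lid F G with hWd
    have hW : IsIdeal W := lid_ideal hGc
    letI := quotRing W hW
    obtain ⟨i1, i2, hmk⟩ := exists_quot W hW
    haveI := i1
    haveI := i2
    have hsur : Function.Surjective W.mkQ := Submodule.mkQ_surjective W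
    have hC' : Cls F (R ⧸ W) := cls_surj hC W.mkQ hsur hmk
    have hs' : ser F (R ⧸ W) (n + 1) = ⊥ := by
      rw [← le_bot_iff]
      refine le_trans (ser_surj W.mkQ hsur hmk (n + 1)) ?_
      rw [Submodule.map_le_iff_le_comap]
      have : ser F R (n + 1) ≤ W := by
        refine Submodule.span_le.2 ?_
        intro w hw
        have := mem_lid (F := F) hw u
        rwa [hu.left] at this
      intro w hw
      rw [Submodule.mem_comap, Submodule.mem_bot, Submodule.mkQ_apply,
        Submodule.Quotient.mk_eq_zero]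
      exact this hw
    have hu' : One (W.mkQ u) := by
      constructor
      · intro x
        obtain ⟨a, rfl⟩ := hsur x
        rw [← hmk, hu.left]
      · intro x
        obtain ⟨a, rfl⟩ := hsur x
        rw [← hmk, hu.right]
    have hpw : ∀ x k, W.mkQ (pw F u x k) = pw F (W.mkQ u) (W.mkQ x) k := by
      intro x k
      induction k with
      | zero => rw [pw_zero, pw_zero]
      | succ k ihk => rw [pw_succ, pw_succ, hmk, ihk]
    have hq' : ∀ i, pw F (W.mkQ u) (W.mkQ (ξ i)) q = 0 := by
      intro i
      rw [← hpw, hq, map_zero]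
    have hG' : Gen F (W.mkQ u) (fun i => W.mkQ (ξ i)) := by
      intro N h1 h2 h3
      have : N.comap W.mkQ = ⊤ := by
        apply hG
        · exact h1
        · exact h2
        · intro x hx y hy
          rw [Submodule.mem_comap, hmk]
          exact h3 _ hx _ hy
      rw [eq_top_iff]
      intro x _
      obtain ⟨a, rfl⟩ := hsur x
      have ha : a ∈ N.comap W.mkQ := by rw [this]; exact Submodule.mem_top
      exact ha
    obtain ⟨B, hB⟩ := ih (R ⧸ W) hC' hs' (W.mkQ u) hu' m (fun i => W.mkQ (ξ i)) q hq' hG'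
    -- lift a spanning set
    choose g hg using hsur
    set b : Finset R := B.image g ∪ {u} ∪ Finset.univ.image ξ with hbd
    have hbtop : Submodule.span F (b : Set R) ⊔ W = ⊤ := by
      rw [eq_top_iff]
      intro x _
      have hx : W.mkQ x ∈ Submodule.span F (B : Set (R ⧸ W)) := by rw [hB]; exact Submodule.mem_top
      have h1 : Submodule.span F (B : Set (R ⧸ W)) ≤ (Submodule.span F (b : Set R)).map W.mkQ := by
        refine Submodule.span_le.2 ?_
        intro y hy
        refine ⟨g y, Submodule.subset_span ?_, hg y⟩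
        rw [hbd]
        simp only [Finset.coe_union, Finset.coe_image, Set.mem_union, Set.mem_image]
        exact Or.inl (Or.inl ⟨y, hy, rfl⟩)
      obtain ⟨s, hs1, hs2⟩ := h1 hx
      have h2 : x - s ∈ W := by
        rw [← Submodule.Quotient.mk_eq_zero, Submodule.Quotient.mk_sub]
        exact sub_eq_zero.2 hs2.symm
      have h3 : x = s + (x - s) := by abel
      rw [h3]
      exact Submodule.add_mem _ (Submodule.mem_sup_left hs1) (Submodule.mem_sup_right h2)
    -- finitely many central elements
    have hfin : ∀ x : R, ∃ T : Finset R, (T : Set R) ⊆ G ∧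
        x ∈ Submodule.span F (b : Set R) ⊔ lid F (T : Set R) := by
      intro x
      have hx : x ∈ Submodule.span F (b : Set R) ⊔ W := by rw [hbtop]; exact Submodule.mem_top
      obtain ⟨s, hs1, w, hw, rfl⟩ := Submodule.mem_sup.1 hx
      obtain ⟨T, hT1, hT2⟩ := lid_fin hw
      exact ⟨T, hT1, Submodule.add_mem _ (Submodule.mem_sup_left hs1)
        (Submodule.mem_sup_right hT2)⟩
    choose Tx hTx1 hTx2 using hfin
    set T : Finset R := (b ×ˢ b).biUnion (fun z => Tx (z.1 * z.2)) with hTd
    have hTG : (T : Set R) ⊆ G := by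
      intro t ht
      rw [hTd, Finset.mem_coe, Finset.mem_biUnion] at ht
      obtain ⟨z, -, hz⟩ := ht
      exact hTx1 _ hz
    refine fin_of_lid (F := F) hu T ?_ (Submodule.span F (b : Set R))
      (Submodule.fg_span (Finset.finite_toSet b)) ?_
    · intro t ht
      exact ⟨hGc t (hTG ht), 3, hGn t (hTG ht)⟩
    · apply hG
      · refine Submodule.mem_sup_left (Submodule.subset_span ?_)
        rw [hbd]; simp
      · intro i
        refine Submodule.mem_sup_left (Submodule.subset_span ?_)
        rw [hbd]; simp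
      · refine mul_closed (fun t ht => hGc t (hTG ht)) ?_
        intro x hx y hy
        have h1 := hTx2 (x * y)
        have h2 : lid F (Tx (x * y) : Set R) ≤ lid F (T : Set R) := by
          apply lid_mono
          intro t ht
          rw [hTd, Finset.mem_coe, Finset.mem_biUnion]
          exact ⟨(x, y), Finset.mem_product.2 ⟨hx, hy⟩, ht⟩
        exact sup_le_sup_left h2 _ h1

end Pool.Agent.Lib.LNA
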