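import Pool.Agent.Lib.LNA.Ser

/-!
# LNA.JPow: powers in Jordan algebras of characteristic `p > 2`
-/

set_option autoImplicit false
set_option linter.unusedSectionVars false

namespace Pool.Agent.Lib.LNA

variable {F : Type*} [Field F] {R : Type*} [NonUnitalNonAssocRing R] [Module F R]
  [IsScalarTower F R R] [SMulCommClass F R R]

section jpow

/-- the operator of multiplication by a product -/
theorem jor_mul_sq (h : Jor R) (h2 : No2 R) (x y w : R) :
    x * x * y * w = x * x * (y * w) + (y * x) * (x * w) + (y * x) * (x * w)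
      - x * (y * (x * w)) - x * (y * (x * w)) := by
  have e := jor_lin1 h h2 x w y
  have c := h.1
  unfold as at e
  have a1 : x * w * y * x = x * (y * (x * w)) := by rw [c _ x, c _ y]
  have a2 : x * w * (y * x) = (y * x) * (x * w) := c _ _
  linear_combination (norm := abel) e - a1 - a1 + a2 + a2

theorem jor_comm_sq (h : Jor R) (x : R) :
    Commute (LinearMap.mulLeft F x) (LinearMap.mulLeft F (x * x)) := by
  ext y
  simp only [Module.End.mul_apply, LinearMap.mulLeft_apply]
  have e := h.2 x y
  rw [h.1 _ x, h.1 y x] at e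
  exact e

theorem jor_sq_pw (h : Jor R) {u : R} (hu : One u) (x : R) (k : ℕ) :
    x * x * pw F u x k = pw F u x (k + 2) := by
  have hc := ((jor_comm_sq (F := F) h x).symm.pow_right k)
  have e := LinearMap.congr_fun hc.eq u
  simp only [Module.End.mul_apply, LinearMap.mulLeft_apply] at e
  unfold pw
  rw [e, hu.right, pow_add, Module.End.mul_apply, pow_two, Module.End.mul_apply,
    LinearMap.mulLeft_apply, LinearMap.mulLeft_apply, hu.right]

theorem jor_comm_pw (h : Jor R) (h2 : No2 R) {u : R} (hu : One u) (x : R) (k : ℕ) :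
    Commute (LinearMap.mulLeft F x) (LinearMap.mulLeft F (pw F u x k)) ∧
    Commute (LinearMap.mulLeft F x) (LinearMap.mulLeft F (pw F u x (k + 1))) := by
  induction k with
  | zero =>
    constructor
    · ext y
      simp only [Module.End.mul_apply, LinearMap.mulLeft_apply, pw_zero, hu.left]
    · rw [pw_succ, pw_zero, hu.right]
  | succ k ih =>
    refine ⟨ih.2, ?_⟩
    have e : LinearMap.mulLeft F (pw F u x (k + 1 + 1)) =
        LinearMap.mulLeft F (x * x) * LinearMap.mulLeft F (pw F u x k)
        + LinearMap.mulLeft F (pw F u x (k + 1)) * LinearMap.mulLeft F x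
        + LinearMap.mulLeft F (pw F u x (k + 1)) * LinearMap.mulLeft F x
        - LinearMap.mulLeft F x * (LinearMap.mulLeft F (pw F u x k) * LinearMap.mulLeft F x)
        - LinearMap.mulLeft F x * (LinearMap.mulLeft F (pw F u x k) * LinearMap.mulLeft F x) := by
      ext w
      simp only [Module.End.mul_apply, LinearMap.mulLeft_apply, LinearMap.add_apply,
        LinearMap.sub_apply]
      rw [← jor_sq_pw h hu, jor_mul_sq h h2, pw_succ, h.1 (pw F u x k) x]
    rw [e]
    have hx : Commute (LinearMap.mulLeft F x) (LinearMap.mulLeft F x) := Commute.refl _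
    have h3 := (jor_comm_sq (F := F) h x).mul_right ih.1
    have h4 := ih.2.mul_right hx
    have h5 := hx.mul_right (ih.1.mul_right hx)
    exact (((h3.add_right h4).add_right h4).sub_right h5).sub_right h5

theorem jor_rec (h : Jor R) (h2 : No2 R) {u : R} (hu : One u) (x : R) (k : ℕ) (w : R) :
    pw F u x (k + 2) * w = x * x * (pw F u x k * w) + x * (pw F u x (k + 1) * w)
      + x * (pw F u x (k + 1) * w) - x * (x * (pw F u x k * w)) - x * (x * (pw F u x k * w)) := by
  have c1 := LinearMap.congr_fun (jor_comm_pw (F := F) h h2 hu x k).1.eq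
  have c2 := LinearMap.congr_fun (jor_comm_pw (F := F) h h2 hu x k).2.eq
  simp only [Module.End.mul_apply, LinearMap.mulLeft_apply] at c1 c2
  rw [← jor_sq_pw h hu, jor_mul_sq h h2, h.1 (pw F u x k) x, ← pw_succ, ← c2, ← c1]

/-- multiplication by a `q`-th power is the `q`-th power of the multiplication -/
theorem mul_pw_jor {p : ℕ} (hp : p.Prime) (hp2 : p ≠ 2) [CharP F p] (h : Jor R) (h2 : No2 R)
    {u : R} (hu : One u) (x : R) (e : ℕ) (y : R) :
    pw F u x (p ^ e) * y = ((LinearMap.mulLeft F x) ^ (p ^ e)) y := by
  set s : Module.End F R := LinearMap.mulLeft F x with hs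
  set t : Module.End F R := LinearMap.mulLeft F (x * x) with ht
  have hst : Commute s t := jor_comm_sq h x
  set d : Module.End F R := t - s * s with hd
  have hsd : Commute s d := hst.sub_right ((Commute.refl s).mul_right (Commute.refl s))
  let S : Module.End F (R × R) := LinearMap.prodMap s s
  let N : Module.End F (R × R) :=
    LinearMap.prod (d ∘ₗ LinearMap.snd F R R) (LinearMap.fst F R R)
  have hS : ∀ a b, S (a, b) = (s a, s b) := fun a b => rfl
  have hN : ∀ a b, N (a, b) = (d b, a) := fun a b => rfl
  have hSN : Commute S N := by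
    refine LinearMap.ext ?_
    rintro ⟨a, b⟩
    rw [Module.End.mul_apply, Module.End.mul_apply, hN, hS, hS, hN]
    have := LinearMap.congr_fun hsd.eq b
    rw [Module.End.mul_apply, Module.End.mul_apply] at this
    rw [this]
  -- the recursion
  have key : ∀ k, ((S + N) ^ k) (y, 0) = (pw F u x k * y, (((S + N) ^ k) (y, 0)).2) ∧
      pw F u x (k + 1) * y = s (pw F u x k * y) + d ((((S + N) ^ k) (y, 0)).2) := by
    intro k
    induction k with
    | zero =>
      constructor
      · rw [pow_zero, Module.End.one_apply, pw_zero, hu.left]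
      · rw [pow_zero, Module.End.one_apply, pw_succ, pw_zero, hu.left, hu.right]
        simp [hs]
    | succ k ih =>
      obtain ⟨ih1, ih2⟩ := ih
      set B := (((S + N) ^ k) (y, 0)).2 with hB
      have e1 : ((S + N) ^ (k + 1)) (y, 0) = (s (pw F u x k * y) + d B, s B + pw F u x k * y) := by
        rw [pow_succ', Module.End.mul_apply, ih1, LinearMap.add_apply, hS, hN, Prod.mk_add_mk]
      refine ⟨?_, ?_⟩
      · rw [e1, ih2]
      · rw [e1]
        simp only
        have e2 := jor_rec (F := F) h h2 hu x k y
        rw [e2, map_add]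
        have e3 : d (s B) = s (d B) := by
          have := LinearMap.congr_fun hsd.eq B
          rw [Module.End.mul_apply, Module.End.mul_apply] at this
          exact this.symm
        have e4 : d (pw F u x k * y) = x * x * (pw F u x k * y) - x * (x * (pw F u x k * y)) := by
          rw [hd, LinearMap.sub_apply, Module.End.mul_apply, ht, hs]
          simp only [LinearMap.mulLeft_apply]
        have e5 : s (d B) = x * (pw F u x (k + 1) * y) - x * (x * (pw F u x k * y)) := by
          rw [ih2, hs]
          simp only [LinearMap.mulLeft_apply, mul_add]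
          abel
        rw [e3, e4, e5, hs]
        simp only [LinearMap.mulLeft_apply]
        abel
  have hodd : Odd (p ^ e) := (hp.odd_of_ne_two hp2).pow
  obtain ⟨j, hj⟩ := hodd
  have hN2 : ∀ i a, (N ^ (2 * i)) (a, 0) = ((d ^ i) a, 0) := by
    intro i a
    induction i with
    | zero => simp
    | succ i ih =>
      rw [mul_add, mul_one, pow_add, Commute.pow_pow_self N _ _ |>.eq, Module.End.mul_apply, ih,
        pow_two, Module.End.mul_apply, hN, hN, map_zero, pow_succ', Module.End.mul_apply]
  have e6 := frob hp (end_char (F := F) (M := R × R) p) hSN e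
  have e7 := (key (p ^ e)).1
  have e8 : (N ^ (p ^ e)) (y, 0) = (0, (d ^ j) y) := by
    rw [hj, pow_succ', Module.End.mul_apply, hN2, hN, map_zero]
  have e9 : ∀ i a b, (S ^ i) (a, b) = ((s ^ i) a, (s ^ i) b) := by
    intro i a b
    induction i with
    | zero => simp
    | succ i ih =>
      rw [pow_succ', Module.End.mul_apply, ih, hS, pow_succ', Module.End.mul_apply,
        Module.End.mul_apply]
  rw [e6, LinearMap.add_apply, e8, e9, Prod.mk_add_mk] at e7
  have e10 := congrArg Prod.fst e7
  simp only [add_zero] at e10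
  exact e10.symm

/-- the double commutator of multiplications -/
theorem jor_dcomm (h : Jor R) (h2 : No2 R) (x z y : R) :
    x * (x * (z * y) - z * (x * y)) - (x * (z * (x * y)) - z * (x * (x * y)))
      = - as z x x * y := by
  have e := jor_der h h2 z x y x
  have c := h.1
  unfold as at e ⊢
  have a1 : z * (x * y) * x = x * (z * (x * y)) := c _ _
  have a2 : z * (x * y * x) = z * (x * (x * y)) := by rw [c (x * y) x]
  have a3 : x * (z * y * x) = x * (x * (z * y)) := by rw [c (z * y) x]
  have a4 : x * (z * (y * x)) = x * (z * (x * y)) := by rw [c y x]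
  have a5 : y * (z * x * x - z * (x * x)) = (z * x * x - z * (x * x)) * y := c _ _
  rw [mul_sub x (z * y * x)] at e
  rw [neg_mul, mul_sub]
  linear_combination (norm := abel) a1 - a2 - a3 + a4 - a5 - e

/-- in a Lie nilpotent Jordan algebra large `p`-power powers are central -/
theorem ctr_pw_jor {p : ℕ} (hp : p.Prime) (hp2 : p ≠ 2) [CharP F p] (h : Jor R) (h2 : No2 R)
    {u : R} (hu : One u) {n e : ℕ} (hs : ser F R n = ⊥) (hn : 2 * n ≤ p ^ e) (x : R) :
    Ctr (pw F u x (p ^ e)) := by
  set s : Module.End F R := LinearMap.mulLeft F x with hsx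
  set T : Module.End F (Module.End F R) := LinearMap.mulLeft F s - LinearMap.mulRight F s with hT
  have hTa : ∀ g, T g = s * g - g * s := fun g => rfl
  have hT2 : ∀ z : R, T (T (LinearMap.mulLeft F z)) = LinearMap.mulLeft F (- as z x x) := by
    intro z
    ext y
    rw [hTa, hTa]
    simp only [LinearMap.sub_apply, Module.End.mul_apply, hsx, LinearMap.mulLeft_apply]
    rw [← jor_dcomm h h2 x z y]
  have hTk : ∀ k, ∀ z : R, ∃ z' ∈ ser F R k,
      (T ^ (2 * k)) (LinearMap.mulLeft F z) = LinearMap.mulLeft F z' := by
    intro k z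
    induction k with
    | zero => exact ⟨z, Submodule.mem_top, by simp⟩
    | succ k ih =>
      obtain ⟨z', hz', e1⟩ := ih
      refine ⟨- as z' x x, (ser F R (k + 1)).neg_mem (as_mem hz' x x), ?_⟩
      rw [mul_add, mul_one, add_comm, pow_add, Module.End.mul_apply, e1, pow_two,
        Module.End.mul_apply, hT2]
  have hTn : ∀ z : R, (T ^ (p ^ e)) (LinearMap.mulLeft F z) = 0 := by
    intro z
    obtain ⟨z', hz', e1⟩ := hTk n z
    rw [hs, Submodule.mem_bot] at hz'
    rw [← Nat.sub_add_cancel hn, pow_add, Module.End.mul_apply, e1, hz', LinearMap.mulLeft_zero_eq_zero,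
      map_zero]
  have hlr : Commute (LinearMap.mulLeft F s) (LinearMap.mulRight F s) := by
    refine LinearMap.ext fun g => ?_
    simp only [Module.End.mul_apply, LinearMap.mulLeft_apply, LinearMap.mulRight_apply, mul_assoc]
  have hcomm : Commute T (LinearMap.mulRight F s) :=
    (hlr).sub_left (Commute.refl _)
  have e2 := frob hp (end_char (F := F) (M := Module.End F R) p) hcomm e
  rw [hT, sub_add_cancel, ← hT] at e2
  have e3 : ∀ z : R, s ^ p ^ e * LinearMap.mulLeft F z = LinearMap.mulLeft F z * s ^ p ^ e := by
    intro z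
    have e4 := LinearMap.congr_fun e2 (LinearMap.mulLeft F z)
    rw [LinearMap.add_apply, hTn, zero_add, LinearMap.pow_mulLeft, LinearMap.pow_mulRight,
      LinearMap.mulLeft_apply, LinearMap.mulRight_apply] at e4
    exact e4
  apply ctr_comm h.1
  intro y z
  have e5 := LinearMap.congr_fun (e3 z) y
  rw [Module.End.mul_apply, Module.End.mul_apply, LinearMap.mulLeft_apply,
    LinearMap.mulLeft_apply, ← mul_pw_jor hp hp2 h h2 hu x e, ← mul_pw_jor hp hp2 h h2 hu x e] at e5
  unfold as
  rw [h.1 _ z, ← e5, h.1 z y, sub_self]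

end jpow

end Pool.Agent.Lib.LNA
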