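import Pool.Agent.Lib.LNA.Basic

/-!
# LNA.Jordan: Jordan rings without 2-torsion
-/

set_option autoImplicit false
set_option linter.unusedSectionVars false

namespace Pool.Agent.Lib.LNA

variable {R : Type*} [NonUnitalNonAssocRing R]

/-- no 2-torsion -/
def No2 (R : Type*) [NonUnitalNonAssocRing R] : Prop := ∀ x : R, x + x = 0 → x = 0

section jordan

theorem jor_as (h : Jor R) (x y : R) : as (x * x) y x = 0 := sub_eq_zero.2 (h.2 x y)

/-- first linearisation -/
theorem jor_lin1 (h : Jor R) (h2 : No2 R) (x z y : R) :
    as (x * x) y z + as (x * z) y x + as (x * z) y x = 0 := by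
  have key : ∀ z : R, (as (x * x) y z + as (x * z) y x + as (x * z) y x)
      + (as (z * z) y x + as (x * z) y z + as (x * z) y z) = 0 := by
    intro z
    have e := jor_as h (x + z) y
    have e1 : (x + z) * (x + z) = x * x + x * z + x * z + z * z := by
      rw [add_mul, mul_add, mul_add, h.1 z x]; abel
    rw [e1] at e
    simp only [as_add_left, as_add_right] at e
    rw [jor_as h x y, jor_as h z y] at e
    rw [← e]
    abel
  have k1 := key z
  have k2 := key (-z)
  simp only [mul_neg, neg_mul, neg_neg, as_neg_left, as_neg_right] at k2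
  apply h2
  linear_combination (norm := abel) k1 - k2

/-- full linearisation -/
theorem jor_lin (h : Jor R) (h2 : No2 R) (x w z y : R) :
    as (x * w) y z + as (x * z) y w + as (w * z) y x = 0 := by
  have e := jor_lin1 h h2 (x + w) z y
  have e1 := jor_lin1 h h2 x z y
  have e2 := jor_lin1 h h2 w z y
  have e3 : (x + w) * (x + w) = x * x + x * w + x * w + w * w := by
    rw [add_mul, mul_add, mul_add, h.1 w x]; abel
  rw [e3, add_mul x w z] at e
  simp only [as_add_left, as_add_right] at e
  apply h2
  linear_combination (norm := abel) e - e1 - e2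

/-- inner maps are derivations -/
theorem jor_der (h : Jor R) (h2 : No2 R) (v x y b : R) :
    as v (x * y) b = x * as v y b + y * as v x b := by
  have e1 := jor_lin h h2 x y b v
  have e2 := jor_lin h h2 x y v b
  have c := h.1
  unfold as at e1 e2 ⊢
  rw [mul_sub, mul_sub]
  have a1 : v * (x * y) * b = x * y * v * b := by rw [c v (x * y)]
  have a2 : v * (x * y * b) = x * y * b * v := c _ _
  have a3 : x * (v * y * b) = y * v * b * x := by rw [c x, c v y]
  have a4 : x * (v * (y * b)) = y * b * v * x := by rw [c x, c v]
  have a5 : y * (v * x * b) = x * v * b * y := by rw [c y, c v x]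
  have a6 : y * (v * (x * b)) = x * b * v * y := by rw [c y, c v]
  have b1 : x * y * (v * b) = x * y * (b * v) := by rw [c v b]
  have b2 : x * b * (v * y) = y * v * (b * x) := by rw [c (x * b), c v y, c x b]
  have b3 : y * b * (v * x) = x * v * (b * y) := by rw [c (y * b), c v x, c y b]
  linear_combination (norm := abel) e1 - e2 + a1 - a2 - a3 + a4 - a5 + a6 + b1 + b2 + b3

theorem as_flex_comm (h : ∀ x y : R, x * y = y * x) (b x : R) : as b x b = 0 := by
  unfold as
  rw [h (b * x) b, h b x, sub_self]

/-- last associators have cube zero -/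
theorem nil_as_jor (h : Jor R) (h2 : No2 R) {v : R} (h3 : ∀ a b, Ctr (as v a b)) (a b : R) :
    as v a b * (as v a b * as v a b) = 0 := by
  have key : ∀ a a' x y, as v a' b * as a x y + as v a b * as a' x y = 0 := by
    intro a a' x y
    have e1 := jor_der h h2 v a a' b
    have e2 : Ctr (as v a' b * a + as v a b * a') := by
      rw [h.1 _ a, h.1 _ a', ← e1]
      exact h3 _ _
    have e3 := e2.as_left x y
    rw [as_add_left, (h3 a' b).as_mul_left, (h3 a b).as_mul_left] at e3
    exact e3
  have k1 : ∀ a x, as v v b * as a x b = - (as v a b * as v x b) := by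
    intro a x
    have := key a v x b
    exact eq_neg_of_add_eq_zero_left this
  have k2 : ∀ x, as v v b * as v x b = 0 := by
    intro x
    apply h2
    have := k1 v x
    nth_rw 1 [this]
    exact neg_add_cancel _
  have k3 : as v a b * as v a b = - (as v v b * as a a b) := by
    rw [k1 a a, neg_neg]
  rw [k3, mul_neg, ← (h3 a b).assoc_left, (h3 a b).comm, k2 a, zero_mul, neg_zero]

end jordan

end Pool.Agent.Lib.LNA
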