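import Pool.Agent.Lib.LNA.Main

/-!
# LNA.Lie: the commutator series of an alternative algebra over a field with `6 ≠ 0`
-/

set_option autoImplicit false
set_option linter.unusedSectionVars false

namespace Pool.Agent.Lib.LNA

/-- the commutator series -/
def lser (F : Type*) (R : Type*) [Field F] [NonUnitalNonAssocRing R] [Module F R] :
    ℕ → Submodule F R
  | 0 => ⊤
  | k + 1 => Submodule.span F {w | ∃ v ∈ lser F R k, ∃ a, w = cm v a}

variable {F : Type*} [Field F] {R : Type*} [NonUnitalNonAssocRing R] [Module F R]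

theorem lser_mem {k : ℕ} {v : R} (hv : v ∈ lser F R k) (a : R) : cm v a ∈ lser F R (k + 1) :=
  Submodule.subset_span ⟨v, hv, a, rfl⟩

theorem lser_mono (k : ℕ) : lser F R (k + 1) ≤ lser F R k := by
  induction k with
  | zero => exact le_top
  | succ k ih =>
    refine Submodule.span_le.2 ?_
    rintro w ⟨v, hv, a, rfl⟩
    exact lser_mem (ih hv) a

theorem jac (h : Alt R) (x y z : R) :
    cm (cm x y) z + cm (cm y z) x + cm (cm z x) y = (6 : ℕ) • as x y z := by
  have e : cm (cm x y) z + cm (cm y z) x + cm (cm z x) y =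
      as x y z + as y z x + as z x y - as y x z - as x z y - as z y x := by
    unfold cm as
    simp only [mul_sub, sub_mul]
    abel
  rw [e, alt12 h y x z, alt23 h x z y, alt13 h z y x, ← altc h x y z, altc h z x y]
  simp only [neg_neg, sub_neg_eq_add]
  abel

theorem ser_le_lser (h6 : (6 : F) ≠ 0) (h : Alt R) (k : ℕ) : ser F R k ≤ lser F R k := by
  induction k with
  | zero => exact le_top
  | succ k ih =>
    refine Submodule.span_le.2 ?_
    rintro w (⟨v, hv, a, rfl⟩ | ⟨v, hv, a, b, rfl⟩)
    · exact lser_mem (ih hv) a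
    · have hv' := ih hv
      have e := jac h v a b
      have m1 : cm (cm v a) b ∈ lser F R (k + 1) := lser_mem (lser_mono k (lser_mem hv' a)) b
      have m2 : cm (cm a b) v ∈ lser F R (k + 1) := by
        rw [cm_swap]
        exact Submodule.neg_mem _ (lser_mem hv' _)
      have m3 : cm (cm b v) a ∈ lser F R (k + 1) := by
        have : cm b v ∈ lser F R (k + 1) := by
          rw [cm_swap]
          exact Submodule.neg_mem _ (lser_mem hv' _)
        exact lser_mem (lser_mono k this) a
      have m4 := Submodule.add_mem _ (Submodule.add_mem _ m1 m2) m3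
      rw [e, ← Nat.cast_smul_eq_nsmul F] at m4
      have m5 := Submodule.smul_mem _ (6 : F)⁻¹ m4
      rw [smul_smul] at m5
      have e2 : (6 : F)⁻¹ * ((6 : ℕ) : F) = 1 := by
        push_cast
        exact inv_mul_cancel₀ h6
      rwa [e2, one_smul] at m5

theorem six_ne {p : ℕ} (hp : p.Prime) [CharP F p] (h : 3 < p) : (6 : F) ≠ 0 := by
  intro h0
  have h1 : ((6 : ℕ) : F) = 0 := by exact_mod_cast h0
  rw [CharP.cast_eq_zero_iff F p] at h1
  have h2 : p ∣ 2 * 3 := h1
  rcases (hp.dvd_mul).1 h2 with h3 | h3
  · have := Nat.le_of_dvd (by norm_num) h3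
    omega
  · have := Nat.le_of_dvd (by norm_num) h3
    omega

end Pool.Agent.Lib.LNA
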