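import Pool.Agent.Lib.LNA.Fin

/-!
# LNA.Trans: translations

If `R` has the translations `ξ i ↦ ξ i + α i • u` and the elements `z i = (ξ i) ^ q` are central,
then an element all of whose translates lie in the ideal `(z i)` is zero.
-/

set_option autoImplicit false
set_option linter.unusedSectionVars false

namespace Pool.Agent.Lib.LNA

open Finset

section poly

variable {F : Type*} [Field F] {R : Type*} [AddCommGroup R] [Module F R]

/-- polynomial functions with values in `R` -/
def PF (F : Type*) (R : Type*) [Field F] [AddCommGroup R] [Module F R] : Submodule F (F → R) :=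
  Submodule.span F {φ | ∃ (j : ℕ) (c : R), φ = fun β => β ^ j • c}

theorem mono_mem (j : ℕ) (c : R) : (fun β : F => β ^ j • c) ∈ PF F R :=
  Submodule.subset_span ⟨j, c, rfl⟩

theorem const_mem (c : R) : (fun _ : F => c) ∈ PF F R := by
  have := mono_mem (F := F) 0 c
  simpa using this

theorem PF_rep {φ : F → R} (h : φ ∈ PF F R) :
    ∃ (N : ℕ) (c : ℕ → R), (∀ j, N ≤ j → c j = 0) ∧ ∀ β, φ β = ∑ j ∈ range N, β ^ j • c j := by
  refine Submodule.span_induction ?_ ?_ ?_ ?_ h
  · rintro φ ⟨j, c, rfl⟩
    refine ⟨j + 1, fun i => if i = j then c else 0, ?_, ?_⟩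
    · intro i hi
      exact if_neg (by omega)
    · intro β
      rw [Finset.sum_eq_single j]
      · simp
      · intro i _ hi
        simp [hi]
      · intro hj
        exact absurd (mem_range.2 (Nat.lt_succ_self j)) hj
  · exact ⟨0, fun _ => 0, fun _ _ => rfl, fun β => by simp⟩
  · rintro φ ψ - - ⟨N, c, h1, h2⟩ ⟨M, d, h3, h4⟩
    have key : ∀ (N M : ℕ) (c : ℕ → R) (β : F), N ≤ M → (∀ j, N ≤ j → c j = 0) →
        ∑ j ∈ range N, β ^ j • c j = ∑ j ∈ range M, β ^ j • c j := by
      intro N M c β hNM hc
      refine Finset.sum_subset (Finset.range_subset_range.2 hNM) ?_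
      intro j _ hj
      rw [mem_range, not_lt] at hj
      rw [hc j hj, smul_zero]
    refine ⟨max N M, fun j => c j + d j, ?_, ?_⟩
    · intro j hj
      change c j + d j = 0
      rw [h1 j (le_trans (le_max_left _ _) hj), h3 j (le_trans (le_max_right _ _) hj), add_zero]
    · intro β
      simp only [Pi.add_apply, smul_add, Finset.sum_add_distrib]
      rw [h2, h4, key N (max N M) c β (le_max_left _ _) h1,
        key M (max N M) d β (le_max_right _ _) h3]
  · rintro a φ - ⟨N, c, h1, h2⟩
    refine ⟨N, fun j => a • c j, ?_, ?_⟩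
    · intro j hj
      change a • c j = 0
      rw [h1 j hj, smul_zero]
    · intro β
      rw [Pi.smul_apply, h2, Finset.smul_sum]
      refine Finset.sum_congr rfl fun j _ => ?_
      rw [smul_comm]

theorem range_ext {N M : ℕ} {c : ℕ → R} (β : F) (hNM : N ≤ M) (hc : ∀ j, N ≤ j → c j = 0) :
    ∑ j ∈ range N, β ^ j • c j = ∑ j ∈ range M, β ^ j • c j := by
  refine Finset.sum_subset (Finset.range_subset_range.2 hNM) ?_
  intro j _ hj
  rw [mem_range, not_lt] at hj
  rw [hc j hj, smul_zero]

/-- coefficients of a polynomial function with values in a subspace -/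
theorem coef_mem [Infinite F] (J : Submodule F R) (N : ℕ) (c : ℕ → R)
    (h : ∀ β : F, ∑ j ∈ range N, β ^ j • c j ∈ J) (j : ℕ) (hj : j < N) : c j ∈ J := by
  rw [← Submodule.Quotient.mk_eq_zero, ← Module.forall_dual_apply_eq_zero_iff F]
  intro f
  let Q : Polynomial F := ∑ i ∈ range N, Polynomial.monomial i (f (J.mkQ (c i)))
  have hQ : Q = 0 := by
    apply Polynomial.funext
    intro β
    rw [Polynomial.eval_zero, Polynomial.eval_finsetSum]
    have h1 : J.mkQ (∑ j ∈ range N, β ^ j • c j) = 0 := by
      rw [Submodule.mkQ_apply, Submodule.Quotient.mk_eq_zero]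
      exact h β
    have h2 := congrArg f h1
    rw [map_zero, map_sum, map_sum] at h2
    rw [← h2]
    refine Finset.sum_congr rfl fun i _ => ?_
    rw [Polynomial.eval_monomial, map_smul, map_smul, smul_eq_mul, mul_comm]
  have h3 := congrArg (fun P => Polynomial.coeff P j) hQ
  simp only [Polynomial.coeff_zero] at h3
  rw [Polynomial.finsetSum_coeff, Finset.sum_eq_single j] at h3
  · rw [Polynomial.coeff_monomial, if_pos rfl] at h3
    exact h3
  · intro i _ hi
    rw [Polynomial.coeff_monomial, if_neg hi]
  · intro h4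
    exact absurd (mem_range.2 hj) h4

theorem pow_smul_mem (q : ℕ) {φ : F → R} (h : φ ∈ PF F R) :
    (fun β => β ^ q • φ β) ∈ PF F R := by
  refine Submodule.span_induction ?_ ?_ ?_ ?_ h
  · rintro φ ⟨j, c, rfl⟩
    have := mono_mem (F := F) (q + j) c
    refine (by convert this using 1; ext β; rw [smul_smul, pow_add])
  · have : (fun β : F => β ^ q • (0 : F → R) β) = 0 := by ext β; simp
    rw [this]; exact Submodule.zero_mem _
  · intro φ ψ _ _ h1 h2
    have : (fun β : F => β ^ q • (φ + ψ) β) = (fun β => β ^ q • φ β) + fun β => β ^ q • ψ β := by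
      ext β; simp
    rw [this]; exact Submodule.add_mem _ h1 h2
  · intro a φ _ h1
    have : (fun β : F => β ^ q • (a • φ) β) = a • (fun β => β ^ q • φ β) := by
      ext β; simp only [Pi.smul_apply]; rw [smul_comm]
    rw [this]; exact Submodule.smul_mem _ _ h1

theorem neg_mem_PF {φ : F → R} (h : φ ∈ PF F R) : (fun β => φ (-β)) ∈ PF F R := by
  refine Submodule.span_induction ?_ ?_ ?_ ?_ h
  · rintro φ ⟨j, c, rfl⟩
    have := Submodule.smul_mem (PF F R) ((-1 : F) ^ j) (mono_mem (F := F) j c)
    refine (by convert this using 1; ext β; simp only [Pi.smul_apply]; rw [smul_smul, ← mul_pow, neg_one_mul])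
  · have : (fun β : F => (0 : F → R) (-β)) = 0 := by ext β; simp
    rw [this]; exact Submodule.zero_mem _
  · intro φ ψ _ _ h1 h2
    exact Submodule.add_mem _ h1 h2
  · intro a φ _ h1
    exact Submodule.smul_mem _ a h1

end poly

section mulpoly

variable {F : Type*} [Field F] {R : Type*} [NonUnitalNonAssocRing R] [Module F R]
  [IsScalarTower F R R] [SMulCommClass F R R]

theorem mul_mem_PF {φ ψ : F → R} (h1 : φ ∈ PF F R) (h2 : ψ ∈ PF F R) :
    (fun β => φ β * ψ β) ∈ PF F R := by
  refine Submodule.span_induction ?_ ?_ ?_ ?_ h1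
  · rintro φ ⟨j, c, rfl⟩
    refine Submodule.span_induction ?_ ?_ ?_ ?_ h2
    · rintro ψ ⟨k, d, rfl⟩
      have := mono_mem (F := F) (j + k) (c * d)
      refine (by convert this using 1; ext β; rw [smul_mul_assoc, mul_smul_comm, smul_smul, pow_add])
    · have : (fun β : F => β ^ j • c * (0 : F → R) β) = 0 := by ext β; simp
      rw [this]; exact Submodule.zero_mem _
    · intro φ ψ _ _ h1 h2
      have : (fun β : F => β ^ j • c * (φ + ψ) β) =
          (fun β => β ^ j • c * φ β) + fun β => β ^ j • c * ψ β := by
        ext β; simp [mul_add]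
      rw [this]; exact Submodule.add_mem _ h1 h2
    · intro a φ _ h1
      have : (fun β : F => β ^ j • c * (a • φ) β) = a • (fun β => β ^ j • c * φ β) := by
        ext β; simp only [Pi.smul_apply]; rw [mul_smul_comm]
      rw [this]; exact Submodule.smul_mem _ _ h1
  · have : (fun β : F => (0 : F → R) β * ψ β) = 0 := by ext β; simp
    rw [this]; exact Submodule.zero_mem _
  · intro φ ψ' _ _ h1 h2
    have : (fun β : F => (φ + ψ') β * ψ β) = (fun β => φ β * ψ β) + fun β => ψ' β * ψ β := by
      ext β; simp [add_mul]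
    rw [this]; exact Submodule.add_mem _ h1 h2
  · intro a φ _ h1
    have : (fun β : F => (a • φ) β * ψ β) = a • (fun β => φ β * ψ β) := by
      ext β; simp only [Pi.smul_apply]; rw [smul_mul_assoc]
    rw [this]; exact Submodule.smul_mem _ _ h1

/-- the basic step: `g` and all its translates in one direction lie in `z R + J` -/
theorem trans_step [Infinite F] {u z : R} (hu : One u) {q : ℕ} (hq : 0 < q)
    {J : Submodule F R} (hJ : IsIdeal J) (τ : F → R →ₗ[F] R)
    (hτm : ∀ β x y, τ β (x * y) = τ β x * τ β y)
    (hτz : ∀ β, τ β z = z + β ^ q • u)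
    (hinv : ∀ β x, τ (-β) (τ β x) = x) (hτJ : ∀ β, ∀ x ∈ J, τ β x ∈ J)
    (hpol : ∀ x, (fun β => τ β x) ∈ PF F R) {g : R}
    (hg : ∀ β, τ β g ∈ LinearMap.range (LinearMap.mulLeft F z) ⊔ J) : g ∈ J := by
  classical
  obtain ⟨N, c, hc0, hc⟩ := PF_rep (hpol g)
  have hcJ : ∀ j, c j ∈ LinearMap.range (LinearMap.mulLeft F z) ⊔ J := by
    intro j
    by_cases hj : j < N
    · exact coef_mem _ N c (fun β => by rw [← hc β]; exact hg β) j hj
    · rw [hc0 j (not_lt.1 hj)]; exact Submodule.zero_mem _
  have hcs : ∀ j, ∃ s, ∃ y ∈ J, c j = z * s + y := by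
    intro j
    obtain ⟨a, ⟨s, rfl⟩, y, hy, h1⟩ := Submodule.mem_sup.1 (hcJ j)
    exact ⟨s, y, hy, h1.symm⟩
  choose s y hy hsy using hcs
  -- the polynomial `S`
  set S : F → R := fun β => ∑ j ∈ range N, β ^ j • τ (-β) (s j) with hS
  have hSp : S ∈ PF F R := by
    have : S = ∑ j ∈ range N, fun β : F => β ^ j • τ (-β) (s j) := by
      ext β; simp [hS]
    rw [this]
    refine Submodule.sum_mem _ fun j _ => ?_
    exact pow_smul_mem j (neg_mem_PF (hpol (s j)))
  have hgS : ∀ β : F, g - z * S β - (-β) ^ q • S β ∈ J := by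
    intro β
    have h1 : τ (-β) (τ β g) = g := hinv β g
    have h1' : τ β g = z * (∑ j ∈ range N, β ^ j • s j) + ∑ j ∈ range N, β ^ j • y j := by
      rw [hc β, Finset.mul_sum, ← Finset.sum_add_distrib]
      refine Finset.sum_congr rfl fun j _ => ?_
      rw [hsy j, smul_add, mul_smul_comm]
    have h2 : τ (-β) (∑ j ∈ range N, β ^ j • s j) = S β := by
      rw [map_sum]
      refine Finset.sum_congr rfl fun j _ => ?_
      rw [map_smul]
    have h3 : τ (-β) (∑ j ∈ range N, β ^ j • y j) ∈ J := by
      refine hτJ _ _ (Submodule.sum_mem _ fun j _ => Submodule.smul_mem _ _ (hy j))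
    rw [h1', map_add, hτm, h2, hτz, add_mul, smul_mul_assoc, hu.left] at h1
    have h4 : g - z * S β - (-β) ^ q • S β = τ (-β) (∑ j ∈ range N, β ^ j • y j) := by
      rw [← h1]; abel
    rw [h4]; exact h3
  obtain ⟨M, d, hd0, hd⟩ := PF_rep hSp
  set e : ℕ → R := fun j => (if j = 0 then g else 0) - z * d j
    - (if q ≤ j then (-1 : F) ^ q • d (j - q) else 0) with he
  have he0 : ∀ β : F, ∑ j ∈ range (q + (M + 1)), β ^ j • e j = g - z * S β - (-β) ^ q • S β := by
    intro β
    have a1 : ∑ j ∈ range (q + (M + 1)), β ^ j • (if j = 0 then g else 0) = g := by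
      rw [Finset.sum_eq_single 0]
      · simp
      · intro j _ hj; simp [hj]
      · intro h; exact absurd (mem_range.2 (by omega)) h
    have a2 : ∑ j ∈ range (q + (M + 1)), β ^ j • (z * d j) = z * S β := by
      have h1 : ∑ j ∈ range (q + (M + 1)), β ^ j • (z * d j)
          = ∑ j ∈ range M, β ^ j • (z * d j) := by
        refine (range_ext (c := fun j => z * d j) β (by omega) ?_).symm
        intro j hj
        change z * d j = 0
        rw [hd0 j hj, mul_zero]
      rw [h1, hd β, Finset.mul_sum]
      exact Finset.sum_congr rfl fun j _ => (mul_smul_comm _ _ _).symm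
    have a3 : ∑ j ∈ range (q + (M + 1)),
        β ^ j • (if q ≤ j then (-1 : F) ^ q • d (j - q) else 0) = (-β) ^ q • S β := by
      rw [Finset.sum_range_add]
      have h1 : ∑ j ∈ range q, β ^ j • (if q ≤ j then (-1 : F) ^ q • d (j - q) else 0) = 0 := by
        refine Finset.sum_eq_zero fun j hj => ?_
        rw [if_neg (not_le.2 (mem_range.1 hj)), smul_zero]
      have h2 : ∑ j ∈ range (M + 1),
          β ^ (q + j) • (if q ≤ q + j then (-1 : F) ^ q • d (q + j - q) else 0)
          = (-β) ^ q • ∑ j ∈ range (M + 1), β ^ j • d j := by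
        rw [Finset.smul_sum]
        refine Finset.sum_congr rfl fun j _ => ?_
        rw [if_pos (Nat.le_add_right _ _), Nat.add_sub_cancel_left, smul_smul, smul_smul]
        congr 1
        rw [neg_pow, pow_add]; ring
      rw [h1, h2, zero_add, hd β, range_ext (c := d) β (Nat.le_succ M) hd0]
    simp only [he, smul_sub, Finset.sum_sub_distrib]
    rw [a1, a2, a3]
  have heJ : ∀ j, j < q + (M + 1) → e j ∈ J := by
    intro j hj
    exact coef_mem J _ e (fun β => by rw [he0 β]; exact hgS β) j hj
  have hdJ : ∀ k j, M ≤ j + k * q → d j ∈ J := by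
    intro k
    induction k with
    | zero =>
      intro j hj
      rw [hd0 j (by simpa using hj)]; exact Submodule.zero_mem _
    | succ k ih =>
      intro j hj
      by_cases hjM : M ≤ j
      · rw [hd0 j hjM]; exact Submodule.zero_mem _
      have h1 := ih (j + q) (by rw [Nat.succ_mul] at hj; omega)
      have h2 := heJ (j + q) (by omega)
      rw [he] at h2
      simp only at h2
      rw [if_neg (by omega), if_pos (Nat.le_add_left _ _), Nat.add_sub_cancel] at h2
      have h3 : (-1 : F) ^ q • d j ∈ J := by
        have h4 := Submodule.add_mem _ h2 (hJ.left z _ h1)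
        have h5 : (0 : R) - z * d (j + q) - (-1 : F) ^ q • d j + z * d (j + q)
            = - ((-1 : F) ^ q • d j) := by abel
        rw [h5] at h4
        exact (Submodule.neg_mem_iff _).1 h4
      have h4 := Submodule.smul_mem J ((-1 : F) ^ q) h3
      rw [smul_smul, ← mul_pow] at h4
      simpa using h4
  have h0 := heJ 0 (by omega)
  rw [he] at h0
  simp only at h0
  rw [if_pos trivial, if_neg (by omega), sub_zero] at h0
  have h1 : d 0 ∈ J := hdJ M 0 (by nlinarith)
  have h2 := Submodule.add_mem _ h0 (hJ.left z _ h1)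
  rwa [sub_add_cancel] at h2

/-- the translation structure -/
structure Trans (F : Type*) [Field F] {R : Type*} [NonUnitalNonAssocRing R] [Module F R]
    {m : ℕ} (u : R) (ξ : Fin m → R) (τ : (Fin m → F) → R →ₗ[F] R) : Prop where
  mul : ∀ α x y, τ α (x * y) = τ α x * τ α y
  one : ∀ α, τ α u = u
  var : ∀ α i, τ α (ξ i) = ξ i + α i • u

variable {m : ℕ} {u : R} {ξ : Fin m → R} {τ : (Fin m → F) → R →ₗ[F] R}

theorem Trans.comp (hG : Gen F u ξ) (h : Trans F u ξ τ) (α β : Fin m → F) (x : R) :
    τ α (τ β x) = τ (β + α) x := by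
  have : LinearMap.eqLocus (τ α ∘ₗ τ β) (τ (β + α)) = ⊤ := by
    apply hG
    · rw [LinearMap.mem_eqLocus, LinearMap.comp_apply, h.one, h.one, h.one]
    · intro i
      rw [LinearMap.mem_eqLocus, LinearMap.comp_apply, h.var, map_add, map_smul, h.one, h.var,
        h.var, Pi.add_apply, add_smul]
      abel
    · intro x hx y hy
      rw [LinearMap.mem_eqLocus] at hx hy ⊢
      rw [LinearMap.comp_apply] at hx hy ⊢
      rw [h.mul, h.mul, h.mul, hx, hy]
  have hx : x ∈ LinearMap.eqLocus (τ α ∘ₗ τ β) (τ (β + α)) := by rw [this]; exact Submodule.mem_top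
  exact hx

theorem Trans.zero (hG : Gen F u ξ) (h : Trans F u ξ τ) (x : R) : τ 0 x = x := by
  have : LinearMap.eqLocus (τ 0) LinearMap.id = ⊤ := by
    apply hG
    · rw [LinearMap.mem_eqLocus, h.one]; rfl
    · intro i
      rw [LinearMap.mem_eqLocus, h.var, Pi.zero_apply, zero_smul, add_zero]; rfl
    · intro x hx y hy
      rw [LinearMap.mem_eqLocus] at hx hy ⊢
      rw [h.mul, hx, hy]; rfl
  have hx : x ∈ LinearMap.eqLocus (τ 0) LinearMap.id := by rw [this]; exact Submodule.mem_top
  exact hx

theorem Trans.poly (hG : Gen F u ξ) (h : Trans F u ξ τ) (i : Fin m) (x : R) :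
    (fun β => τ (Pi.single i β) x) ∈ PF F R := by
  let N : Submodule F R :=
    { carrier := {x | (fun β => τ (Pi.single i β) x) ∈ PF F R}
      add_mem' := by
        intro x y hx hy
        have hx' : (fun β => τ (Pi.single i β) x) ∈ PF F R := hx
        have hy' : (fun β => τ (Pi.single i β) y) ∈ PF F R := hy
        change (fun β => τ (Pi.single i β) (x + y)) ∈ PF F R
        simp only [map_add]
        exact Submodule.add_mem _ hx' hy'
      zero_mem' := by
        change (fun β => τ (Pi.single i β) 0) ∈ PF F R
        simp only [map_zero]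
        exact Submodule.zero_mem (PF F R)
      smul_mem' := by
        intro c x hx
        have hx' : (fun β => τ (Pi.single i β) x) ∈ PF F R := hx
        change (fun β => τ (Pi.single i β) (c • x)) ∈ PF F R
        simp only [map_smul]
        exact Submodule.smul_mem _ c hx' }
  have hN : N = ⊤ := by
    apply hG
    · change (fun β => τ (Pi.single i β) u) ∈ PF F R
      simp only [h.one]
      exact const_mem u
    · intro j
      change (fun β => τ (Pi.single i β) (ξ j)) ∈ PF F R
      by_cases hij : i = j
      · subst hij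
        simp only [h.var, Pi.single_eq_same]
        have := Submodule.add_mem _ (const_mem (F := F) (ξ i)) (mono_mem (F := F) 1 u)
        refine (by convert this using 1; ext β; simp)
      · simp only [h.var]
        have : (fun β : F => ξ j + (Pi.single i β : Fin m → F) j • u) = fun _ => ξ j := by
          ext β
          rw [Pi.single_eq_of_ne (Ne.symm hij), zero_smul, add_zero]
        rw [this]
        exact const_mem _
    · intro x hx y hy
      change (fun β => τ (Pi.single i β) (x * y)) ∈ PF F R
      simp only [h.mul]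
      exact mul_mem_PF hx hy
  have hx : x ∈ N := by rw [hN]; exact Submodule.mem_top
  exact hx

omit [IsScalarTower F R R] in
theorem Trans.pw (h : Trans F u ξ τ) (α : Fin m → F) (x : R) (k : ℕ) :
    τ α (pw F u x k) = pw F u (τ α x) k := by
  induction k with
  | zero => rw [pw_zero, pw_zero, h.one]
  | succ k ih => rw [pw_succ, pw_succ, h.mul, ih]

/-- the ideal generated by central elements `z i`, `i ∈ T` -/
def zid (F : Type*) [Field F] {R : Type*} [NonUnitalNonAssocRing R] [Module F R]
    [SMulCommClass F R R] {m : ℕ} (z : Fin m → R) (T : Finset (Fin m)) : Submodule F R :=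
  T.sup (fun i => LinearMap.range (LinearMap.mulLeft F (z i)))

theorem zid_ideal {z : Fin m → R} (hz : ∀ i, Ctr (z i)) (T : Finset (Fin m)) :
    IsIdeal (zid F z T) := by
  classical
  induction T using Finset.induction_on with
  | empty =>
    constructor
    · intro a w hw
      have : w = 0 := by simpa [zid] using hw
      rw [this, mul_zero]; exact Submodule.zero_mem _
    · intro a w hw
      have : w = 0 := by simpa [zid] using hw
      rw [this, zero_mul]; exact Submodule.zero_mem _
  | insert i T _ ih =>
    have e : zid F z (insert i T) = LinearMap.range (LinearMap.mulLeft F (z i)) ⊔ zid F z T := by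
      unfold zid
      rw [Finset.sup_insert]
    rw [e]
    constructor
    · intro a w hw
      obtain ⟨x, ⟨r, rfl⟩, y, hy, rfl⟩ := Submodule.mem_sup.1 hw
      rw [mul_add, LinearMap.mulLeft_apply, (hz i).mul_left]
      exact Submodule.add_mem _ (Submodule.mem_sup_left ⟨a * r, rfl⟩)
        (Submodule.mem_sup_right (ih.left _ _ hy))
    · intro a w hw
      obtain ⟨x, ⟨r, rfl⟩, y, hy, rfl⟩ := Submodule.mem_sup.1 hw
      rw [add_mul, LinearMap.mulLeft_apply, (hz i).assoc_left]
      exact Submodule.add_mem _ (Submodule.mem_sup_left ⟨r * a, rfl⟩)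
        (Submodule.mem_sup_right (ih.right _ _ hy))

/-- elements all of whose translates lie in the ideal `(z i)` vanish -/
theorem trans_inj [Infinite F] {p : ℕ} (hp : p.Prime) [CharP F p] (hu : One u) (hG : Gen F u ξ)
    (h : Trans F u ξ τ) {e : ℕ} (hz : ∀ i, Ctr (LNA.pw F u (ξ i) (p ^ e))) {g : R}
    (hg : ∀ α, τ α g ∈ zid F (fun i => LNA.pw F u (ξ i) (p ^ e)) Finset.univ) : g = 0 := by
  classical
  set z : Fin m → R := fun i => LNA.pw F u (ξ i) (p ^ e) with hzd
  have hq : 0 < p ^ e := pow_pos hp.pos e
  have hτz : ∀ α i, τ α (z i) = z i + (α i) ^ p ^ e • u := by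
    intro α i
    rw [hzd]
    simp only
    rw [h.pw, h.var, pw_add_smul hp hu]
  have key : ∀ T : Finset (Fin m), (∀ α, τ α g ∈ zid F z T) → g = 0 := by
    intro T
    induction T using Finset.induction_on with
    | empty =>
      intro h1
      have h2 := h1 0
      rw [h.zero hG] at h2
      simpa [zid] using h2
    | insert i T hiT ih =>
      intro h1
      apply ih
      intro α
      have e1 : zid F z (insert i T) = LinearMap.range (LinearMap.mulLeft F (z i)) ⊔ zid F z T := by
        unfold zid
        rw [Finset.sup_insert]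
      refine trans_step (F := F) (z := z i) hu hq (zid_ideal hz T)
        (fun β => τ (Pi.single i β)) (fun β => h.mul _) ?_ ?_ ?_
        (h.poly hG i) ?_
      · intro β
        rw [hτz, Pi.single_eq_same]
      · intro β x
        rw [h.comp hG]
        have : (Pi.single i β + Pi.single i (-β) : Fin m → F) = 0 := by
          rw [← Pi.single_add, add_neg_cancel, Pi.single_zero]
        rw [this, h.zero hG]
      · intro β
        have h3 : zid F z T ≤ (zid F z T).comap (τ (Pi.single i β)) := by
          unfold zid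
          refine Finset.sup_le fun j hj => ?_
          rintro _ ⟨r, rfl⟩
          rw [Submodule.mem_comap, LinearMap.mulLeft_apply, h.mul, hτz]
          have hji : j ≠ i := fun e => hiT (e ▸ hj)
          rw [Pi.single_eq_of_ne hji, zero_pow hq.ne', zero_smul, add_zero]
          have h4 : LinearMap.range (LinearMap.mulLeft F (z j)) ≤
              T.sup (fun i => LinearMap.range (LinearMap.mulLeft F (z i))) :=
            Finset.le_sup (f := fun i => LinearMap.range (LinearMap.mulLeft F (z i))) hj
          exact h4 ⟨_, rfl⟩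
        exact fun x hx => h3 hx
      · intro β
        rw [h.comp hG, ← e1]
        exact h1 _
  exact key Finset.univ hg

end mulpoly

end Pool.Agent.Lib.LNA
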