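import Pool.Agent.Lib.LNA.Fin
import Pool.Agent.Lib.LNA.Trans

/-!
# LNA.Main: finite-dimensional algebras with the identities of a Lie nilpotent algebra
-/

set_option autoImplicit false
set_option linter.unusedSectionVars false

namespace Pool.Agent.Lib.LNA

/-! ### the relatively free algebra as an algebra of functions -/

section rel

variable (F : Type) [Field F] {A : Type} [NonUnitalNonAssocRing A] [Module F A]
  [IsScalarTower F A A] [SMulCommClass F A A] (m : ℕ) (e : A)

/-- functions `A^m → A` generated by the unit element and the coordinates -/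
def rel : NonUnitalSubalgebra F ((Fin m → A) → A) :=
  NonUnitalAlgebra.adjoin F (insert (fun _ => e) (Set.range (fun (i : Fin m) a => a i)))

/-- the unit element -/
def relU : rel F m e := ⟨fun _ => e, NonUnitalAlgebra.subset_adjoin F (Set.mem_insert _ _)⟩

/-- the coordinates -/
def relX (i : Fin m) : rel F m e :=
  ⟨fun a => a i, NonUnitalAlgebra.subset_adjoin F (Set.mem_insert_of_mem _ ⟨i, rfl⟩)⟩

theorem rel_gen : Gen F (relU F m e) (relX F m e) := by
  intro N h1 h2 h3
  rw [eq_top_iff]
  rintro ⟨x, hx⟩ -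
  induction hx using NonUnitalAlgebra.adjoin_induction with
  | mem x hx =>
    rcases hx with rfl | ⟨i, rfl⟩
    · exact h1
    · exact h2 i
  | add x y hx hy ihx ihy => exact N.add_mem ihx ihy
  | zero => exact N.zero_mem
  | mul x y hx hy ihx ihy => exact h3 _ ihx _ ihy
  | smul r x hx ihx => exact N.smul_mem r ihx

/-- evaluation -/
def relEv (a : Fin m → A) : rel F m e →ₗ[F] A where
  toFun r := r.1 a
  map_add' _ _ := rfl
  map_smul' _ _ := rfl

theorem relEv_mul (a : Fin m → A) (x y : rel F m e) :
    relEv F m e a (x * y) = relEv F m e a x * relEv F m e a y := rfl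

variable {F m e}

theorem rel_ext {x y : rel F m e} (h : ∀ a, relEv F m e a x = relEv F m e a y) : x = y :=
  Subtype.ext (funext h)

theorem rel_one (he : One e) : One (relU F m e) := by
  constructor
  · intro x
    exact Subtype.ext (funext fun a => he.left _)
  · intro x
    exact Subtype.ext (funext fun a => he.right _)

theorem rel_alt (h : Alt A) : Alt (rel F m e) := by
  intro x y
  constructor
  · exact Subtype.ext (funext fun a => (h (x.1 a) (y.1 a)).1)
  · exact Subtype.ext (funext fun a => (h (x.1 a) (y.1 a)).2)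

theorem rel_jor (h : Jor A) : Jor (rel F m e) := by
  constructor
  · intro x y
    exact Subtype.ext (funext fun a => h.1 (x.1 a) (y.1 a))
  · intro x y
    exact Subtype.ext (funext fun a => h.2 (x.1 a) (y.1 a))

theorem rel_cls (h : Cls F A) : Cls F (rel F m e) := by
  rcases h with h | ⟨h0, h⟩
  · exact Or.inl (rel_alt h)
  · exact Or.inr ⟨h0, rel_jor h⟩

theorem rel_ser {n : ℕ} (h : ser F A n = ⊥) : ser F (rel F m e) n = ⊥ := by
  rw [eq_bot_iff]
  intro x hx
  rw [Submodule.mem_bot]
  refine rel_ext fun a => ?_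
  have h1 := ser_map (relEv F m e a) (relEv_mul F m e a) n ⟨x, hx, rfl⟩
  rw [h, Submodule.mem_bot] at h1
  rw [h1, map_zero]

theorem rel_shift_mem (α : Fin m → F) {x : (Fin m → A) → A} (hx : x ∈ rel F m e) :
    (fun a => x (fun i => a i + α i • e)) ∈ rel F m e := by
  induction hx using NonUnitalAlgebra.adjoin_induction with
  | mem x hx =>
    rcases hx with rfl | ⟨i, rfl⟩
    · exact (relU F m e).2
    · exact (relX F m e i + α i • relU F m e).2
  | add x y hx hy ihx ihy => exact add_mem ihx ihy
  | zero => exact (0 : rel F m e).2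
  | mul x y hx hy ihx ihy => exact mul_mem ihx ihy
  | smul r x hx ihx => exact (r • (⟨_, ihx⟩ : rel F m e)).2

variable (F m e)

/-- the translations -/
def relT (α : Fin m → F) : rel F m e →ₗ[F] rel F m e where
  toFun r := ⟨fun a => r.1 (fun i => a i + α i • e), rel_shift_mem α r.2⟩
  map_add' _ _ := rfl
  map_smul' _ _ := rfl

theorem rel_trans : Trans F (relU F m e) (relX F m e) (relT F m e) := by
  constructor
  · intro α x y; rfl
  · intro α; rfl
  · intro α i; rfl

variable {F m e}

/-- evaluation at a generating family is surjective -/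
theorem relEv_surj {g : Fin m → A} (hG : Gen F e g) : Function.Surjective (relEv F m e g) := by
  have : LinearMap.range (relEv F m e g) = ⊤ := by
    apply hG
    · exact ⟨relU F m e, rfl⟩
    · intro i
      exact ⟨relX F m e i, rfl⟩
    · rintro _ ⟨x, rfl⟩ _ ⟨y, rfl⟩
      exact ⟨x * y, rfl⟩
  exact LinearMap.range_eq_top.1 this

end rel

/-! ### identities -/

section ids

variable {F : Type} [Field F] {R S : Type} [NonUnitalNonAssocRing R] [Module F R]
  [IsScalarTower F R R] [SMulCommClass F R R] [NonUnitalNonAssocRing S] [Module F S]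
  [IsScalarTower F S S] [SMulCommClass F S S]

theorem lift_nat (θ : R →ₗ[F] S) (hm : ∀ x y, θ (x * y) = θ x * θ y) (φ : ℕ → R)
    (f : FreeNonUnitalNonAssocAlgebra F ℕ) :
    θ (FreeNonUnitalNonAssocAlgebra.lift F φ f) =
      FreeNonUnitalNonAssocAlgebra.lift F (fun i => θ (φ i)) f := by
  let Θ : R →ₙₐ[F] S :=
    { toFun := θ
      map_smul' := fun c x => map_smul θ c x
      map_zero' := map_zero θ
      map_add' := map_add θ
      map_mul' := hm }
  have : Θ.comp (FreeNonUnitalNonAssocAlgebra.lift F φ) =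
      FreeNonUnitalNonAssocAlgebra.lift F (fun i => θ (φ i)) := by
    apply FreeNonUnitalNonAssocAlgebra.hom_ext
    intro i
    simp only [NonUnitalAlgHom.comp_apply,
      FreeNonUnitalNonAssocAlgebra.lift_of_apply]
    rfl
  exact congrArg (fun h => h f) this

theorem alt_surj (h : Alt R) (f : R → S)
    (hf : Function.Surjective f) (hm : ∀ x y, f (x * y) = f x * f y) : Alt S := by
  intro x y
  obtain ⟨a, rfl⟩ := hf x
  obtain ⟨b, rfl⟩ := hf y
  constructor
  · rw [← hm, ← hm, ← hm, ← hm, (h a b).1]
  · rw [← hm, ← hm, ← hm, ← hm, (h a b).2]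

theorem jor_surj (h : Jor R) (f : R → S)
    (hf : Function.Surjective f) (hm : ∀ x y, f (x * y) = f x * f y) : Jor S := by
  refine ⟨?_, ?_⟩
  · intro x y
    obtain ⟨a, rfl⟩ := hf x
    obtain ⟨b, rfl⟩ := hf y
    rw [← hm, ← hm, h.1]
  · intro x y
    obtain ⟨a, rfl⟩ := hf x
    obtain ⟨b, rfl⟩ := hf y
    rw [← hm, ← hm, ← hm, ← hm, ← hm, h.2 a b]

end ids

/-- the set of identities -/
def Id (F : Type) [Field F] (R : Type) [NonUnitalNonAssocRing R] [Module F R]
    [IsScalarTower F R R] [SMulCommClass F R R] (f : FreeNonUnitalNonAssocAlgebra F ℕ) : Prop :=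
  ∀ φ : ℕ → R, FreeNonUnitalNonAssocAlgebra.lift F φ f = 0

/-! ### the unital case -/

theorem exists_ctr_pw {F : Type} [Field F] {p : ℕ} (hp : p.Prime) [CharP F p]
    {R : Type} [NonUnitalNonAssocRing R] [Module F R] [IsScalarTower F R R] [SMulCommClass F R R]
    (hC : Cls F R) {n : ℕ} (hs : ser F R n = ⊥) {u : R} (hu : One u) :
    ∃ e : ℕ, ∀ x : R, Ctr (pw F u x (p ^ e)) := by
  rcases hC with h | ⟨h2, h⟩
  · exact ⟨n + 1, ctr_pw_alt hp h hu (ser_bot (Nat.lt_pow_self hp.one_lt).le hs)⟩
  · refine ⟨2 * n, ctr_pw_jor hp ?_ h (no2_of (F := F) h2) hu hs (Nat.lt_pow_self hp.one_lt).le⟩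
    rintro rfl
    exact h2 (by exact_mod_cast CharP.cast_eq_zero F 2)

theorem unital {F : Type} [Field F] [Infinite F] {p : ℕ} (hp : p.Prime) [CharP F p]
    {A : Type} [NonUnitalNonAssocRing A] [Module F A] [IsScalarTower F A A] [SMulCommClass F A A]
    (hC : Cls F A) {n : ℕ} (hs : ser F A n = ⊥) {e : A} (he : One e) {m : ℕ} {g : Fin m → A}
    (hG : Gen F e g) :
    ∃ (B : Type) (_ : NonUnitalNonAssocRing B) (_ : Module F B) (_ : IsScalarTower F B B)
      (_ : SMulCommClass F B B), FiniteDimensional F B ∧ (Alt A → Alt B) ∧ (Jor A → Jor B) ∧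
        ser F B n = ⊥ ∧ ∀ f : FreeNonUnitalNonAssocAlgebra F ℕ, Id F B f ↔ Id F A f := by
  classical
  have hu : One (relU F m e) := rel_one he
  have hCR : Cls F (rel F m e) := rel_cls hC
  have hsR : ser F (rel F m e) n = ⊥ := rel_ser hs
  obtain ⟨k, hk⟩ := exists_ctr_pw hp hCR hsR hu
  set z : Fin m → rel F m e := fun i => pw F (relU F m e) (relX F m e i) (p ^ k) with hz
  have hzc : ∀ i, Ctr (z i) := fun i => hk _
  set J := zid F z Finset.univ with hJ
  have hJi : IsIdeal J := zid_ideal hzc _
  let inst := quotRing J hJi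
  obtain ⟨i1, i2, hmul⟩ := exists_quot J hJi
  have hsur : Function.Surjective J.mkQ := J.mkQ_surjective
  have hCB : Cls F (rel F m e ⧸ J) := cls_surj hCR J.mkQ hsur hmul
  have hsB : ser F (rel F m e ⧸ J) n = ⊥ := by
    have := ser_surj J.mkQ hsur hmul n
    rw [hsR, Submodule.map_bot] at this
    exact le_bot_iff.1 this
  have huB : One (J.mkQ (relU F m e)) := by
    constructor
    · intro x
      obtain ⟨x, rfl⟩ := hsur x
      rw [← hmul, hu.left]
    · intro x
      obtain ⟨x, rfl⟩ := hsur x
      rw [← hmul, hu.right]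
  have hpw : ∀ (x : rel F m e) (j : ℕ),
      J.mkQ (pw F (relU F m e) x j) = pw F (J.mkQ (relU F m e)) (J.mkQ x) j := by
    intro x j
    induction j with
    | zero => rw [pw_zero, pw_zero]
    | succ j ih => rw [pw_succ, pw_succ, hmul, ih]
  have hzJ : ∀ i, z i ∈ J := by
    intro i
    have h1 : LinearMap.range (LinearMap.mulLeft F (z i)) ≤ J :=
      Finset.le_sup (f := fun i => LinearMap.range (LinearMap.mulLeft F (z i))) (Finset.mem_univ i)
    apply h1
    exact ⟨relU F m e, by rw [LinearMap.mulLeft_apply, hu.right]⟩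
  have hfin : (⊤ : Submodule F (rel F m e ⧸ J)).FG := by
    refine fin_dim F n _ hCB hsB _ huB m (fun i => J.mkQ (relX F m e i)) (p ^ k) ?_ ?_
    · intro i
      rw [← hpw]
      exact (Submodule.Quotient.mk_eq_zero J).2 (hzJ i)
    · intro N h1 h2 h3
      have h4 : N.comap J.mkQ = ⊤ := by
        apply rel_gen
        · exact h1
        · exact h2
        · intro x hx y hy
          rw [Submodule.mem_comap] at hx hy ⊢
          rw [hmul]
          exact h3 _ hx _ hy
      rw [eq_top_iff]
      intro x _
      obtain ⟨x, rfl⟩ := hsur x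
      have : x ∈ N.comap J.mkQ := by rw [h4]; exact Submodule.mem_top
      exact this
  refine ⟨rel F m e ⧸ J, inst, inferInstance, i1, i2, ⟨hfin⟩, ?_, ?_, hsB, ?_⟩
  · exact fun h => alt_surj (rel_alt h) J.mkQ hsur hmul
  · exact fun h => jor_surj (rel_jor h) J.mkQ hsur hmul
  · intro f
    constructor
    · intro hf ψ
      have hR : ∀ φ : ℕ → rel F m e, FreeNonUnitalNonAssocAlgebra.lift F φ f = 0 := by
        intro φ
        refine trans_inj (F := F) hp hu (rel_gen F m e) (rel_trans F m e) (e := k) hzc ?_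
        intro α
        rw [lift_nat (relT F m e α) (fun _ _ => rfl)]
        have := hf (fun i => J.mkQ (relT F m e α (φ i)))
        rw [← lift_nat J.mkQ hmul] at this
        exact (Submodule.Quotient.mk_eq_zero J).1 this
      have h1 : ∀ j, ∃ x, relEv F m e g x = ψ j := fun j => relEv_surj hG (ψ j)
      choose φ hφ using h1
      have h2 := lift_nat (relEv F m e g) (relEv_mul F m e g) φ f
      rw [hR φ, map_zero] at h2
      rw [h2]
      congr 1
      simp only [hφ]
    · intro hf ψ
      have h1 : ∀ j, ∃ x, J.mkQ x = ψ j := fun j => hsur (ψ j)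
      choose φ hφ using h1
      have h2 := lift_nat J.mkQ hmul φ f
      have h3 : FreeNonUnitalNonAssocAlgebra.lift F φ f = 0 := by
        refine rel_ext fun a => ?_
        rw [lift_nat (relEv F m e a) (relEv_mul F m e a), hf, map_zero]
      rw [h3, map_zero] at h2
      rw [h2]
      congr 1
      simp only [hφ]

/-! ### adjoining a unit -/

section unitization

variable {F : Type} [Field F] {A : Type} [NonUnitalNonAssocRing A] [Module F A]
  [IsScalarTower F A A] [SMulCommClass F A A]

theorem uni_tower : IsScalarTower F (Unitization F A) (Unitization F A) := by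
  constructor
  intro c x y
  rw [smul_eq_mul, smul_eq_mul]
  refine Unitization.ext ?_ ?_
  · rw [Unitization.fst_mul, Unitization.fst_smul, Unitization.fst_smul, Unitization.fst_mul,
      smul_eq_mul, smul_eq_mul, mul_assoc]
  · rw [Unitization.snd_mul, Unitization.fst_smul, Unitization.snd_smul, Unitization.snd_smul,
      Unitization.snd_mul, smul_eq_mul, smul_mul_assoc]
    module

theorem uni_smc : SMulCommClass F (Unitization F A) (Unitization F A) := by
  constructor
  intro c x y
  rw [smul_eq_mul, smul_eq_mul]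
  refine Unitization.ext ?_ ?_
  · rw [Unitization.fst_mul, Unitization.fst_smul, Unitization.fst_smul, Unitization.fst_mul,
      smul_eq_mul, smul_eq_mul, mul_left_comm]
  · rw [Unitization.snd_mul, Unitization.fst_smul, Unitization.snd_smul, Unitization.snd_smul,
      Unitization.snd_mul, smul_eq_mul, mul_smul_comm]
    module

theorem uni_as (x y z : Unitization F A) :
    as x y z = Unitization.inr (as x.snd y.snd z.snd) := by
  unfold as
  rw [sub_eq_iff_eq_add]
  refine Unitization.ext ?_ ?_
  · rw [Unitization.fst_add, Unitization.fst_mul, Unitization.fst_mul, Unitization.fst_mul,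
      Unitization.fst_mul, Unitization.fst_inr, mul_assoc, zero_add]
  · simp only [Unitization.snd_add, Unitization.snd_mul, Unitization.fst_mul, Unitization.snd_inr,
      smul_add, add_mul, mul_add, smul_smul, smul_mul_assoc, mul_smul_comm]
    module

theorem uni_cm (x y : Unitization F A) : cm x y = Unitization.inr (cm x.snd y.snd) := by
  unfold cm
  rw [sub_eq_iff_eq_add]
  refine Unitization.ext ?_ ?_
  · rw [Unitization.fst_add, Unitization.fst_mul, Unitization.fst_mul, Unitization.fst_inr,
      mul_comm, zero_add]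
  · simp only [Unitization.snd_add, Unitization.snd_mul, Unitization.snd_inr]
    abel

theorem uni_one : One (1 : Unitization F A) := ⟨one_mul, mul_one⟩

theorem uni_alt (h : Alt A) : Alt (Unitization F A) := by
  intro x y
  constructor
  · have := uni_as x x y
    rw [alt_left h, Unitization.inr_zero] at this
    exact sub_eq_zero.1 this
  · have := uni_as y x x
    rw [alt_right h, Unitization.inr_zero] at this
    exact sub_eq_zero.1 this

theorem uni_jor (h : Jor A) : Jor (Unitization F A) := by
  constructor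
  · intro x y
    have := uni_cm x y
    unfold cm at this
    rw [h.1 x.snd y.snd, sub_self, Unitization.inr_zero] at this
    exact sub_eq_zero.1 this
  · intro x y
    have h1 := uni_as (x * x) y x
    have h2 : as (x * x).snd y.snd x.snd = 0 := by
      have e1 : as (x.fst • x.snd) y.snd x.snd = 0 := by
        unfold as
        rw [smul_mul_assoc, smul_mul_assoc, smul_mul_assoc, h.1 (x.snd * y.snd), h.1 y.snd,
          sub_self]
      have e2 : as (x.snd * x.snd) y.snd x.snd = 0 := sub_eq_zero.2 (h.2 x.snd y.snd)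
      rw [Unitization.snd_mul, as_add_left, as_add_left, e1, e2, add_zero, add_zero]
    rw [h2, Unitization.inr_zero] at h1
    exact sub_eq_zero.1 h1

theorem uni_cls (h : Cls F A) : Cls F (Unitization F A) := by
  rcases h with h | ⟨h0, h⟩
  · exact Or.inl (uni_alt h)
  · exact Or.inr ⟨h0, uni_jor h⟩

theorem uni_ser (k : ℕ) : ∀ v ∈ ser F (Unitization F A) k, v.snd ∈ ser F A k ∧
    (k ≠ 0 → v.fst = 0) := by
  induction k with
  | zero => exact fun v _ => ⟨Submodule.mem_top, fun h => absurd rfl h⟩
  | succ k ih =>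
    intro v hv
    refine Submodule.span_induction ?_ ?_ ?_ ?_ hv
    · rintro w (⟨v, hv, a, rfl⟩ | ⟨v, hv, a, b, rfl⟩)
      · rw [uni_cm]
        exact ⟨cm_mem (ih v hv).1 _, fun _ => rfl⟩
      · rw [uni_as]
        exact ⟨as_mem (ih v hv).1 _ _, fun _ => rfl⟩
    · exact ⟨Submodule.zero_mem _, fun _ => rfl⟩
    · intro x y _ _ hx hy
      refine ⟨?_, fun h => ?_⟩
      · rw [Unitization.snd_add]
        exact Submodule.add_mem _ hx.1 hy.1
      · rw [Unitization.fst_add, hx.2 h, hy.2 h, add_zero]
    · intro c x _ hx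
      refine ⟨?_, fun h => ?_⟩
      · rw [Unitization.snd_smul]
        exact Submodule.smul_mem _ _ hx.1
      · rw [Unitization.fst_smul, hx.2 h, smul_zero]

theorem uni_ser_bot {n : ℕ} (h : ser F A n = ⊥) : ser F (Unitization F A) (n + 1) = ⊥ := by
  rw [eq_bot_iff]
  intro v hv
  obtain ⟨h1, h2⟩ := uni_ser (n + 1) v hv
  rw [ser_bot (Nat.le_succ n) h, Submodule.mem_bot] at h1
  rw [Submodule.mem_bot]
  exact Unitization.ext (h2 (Nat.succ_ne_zero n)) h1

theorem top_of_surj {m : ℕ} {g : Fin m → A}
    (hg : Function.Surjective (FreeNonUnitalNonAssocAlgebra.lift F g)) (N : Submodule F A)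
    (h2 : ∀ i, g i ∈ N) (h3 : ∀ x ∈ N, ∀ y ∈ N, x * y ∈ N) : N = ⊤ := by
  let M : NonUnitalSubalgebra F A :=
    { N with mul_mem' := fun {a b} ha hb => h3 a ha b hb }
  rw [eq_top_iff]
  intro a _
  obtain ⟨f, rfl⟩ := hg a
  let G : Fin m → M := fun i => ⟨g i, h2 i⟩
  have : (NonUnitalSubalgebraClass.subtype M).comp (FreeNonUnitalNonAssocAlgebra.lift F G) =
      FreeNonUnitalNonAssocAlgebra.lift F g := by
    apply FreeNonUnitalNonAssocAlgebra.hom_ext
    intro i
    rw [NonUnitalAlgHom.comp_apply, FreeNonUnitalNonAssocAlgebra.lift_of_apply,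
      FreeNonUnitalNonAssocAlgebra.lift_of_apply]
    rfl
  rw [← this]
  exact (FreeNonUnitalNonAssocAlgebra.lift F G f).2

theorem uni_gen {m : ℕ} {g : Fin m → A}
    (hg : Function.Surjective (FreeNonUnitalNonAssocAlgebra.lift F g)) :
    Gen F (1 : Unitization F A) (fun i => (Unitization.inr (g i) : Unitization F A)) := by
  intro N h1 h2 h3
  have h4 : N.comap (Unitization.inrHom F F A) = ⊤ := by
    apply top_of_surj hg
    · exact h2
    · intro x hx y hy
      have hx' : (Unitization.inr x : Unitization F A) ∈ N := hx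
      have hy' : (Unitization.inr y : Unitization F A) ∈ N := hy
      change (Unitization.inr (x * y) : Unitization F A) ∈ N
      rw [Unitization.inr_mul]
      exact h3 _ hx' _ hy'
  rw [eq_top_iff]
  intro v _
  have : v = v.fst • (1 : Unitization F A) + Unitization.inr v.snd := by
    refine Unitization.ext ?_ ?_
    · simp
    · simp
  rw [this]
  have h5 : v.snd ∈ N.comap (Unitization.inrHom F F A) := by rw [h4]; exact Submodule.mem_top
  exact N.add_mem (N.smul_mem _ h1) h5

end unitization

theorem main {F : Type} [Field F] [Infinite F] {p : ℕ} (hp : p.Prime) [CharP F p]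
    {A : Type} [NonUnitalNonAssocRing A] [Module F A] [IsScalarTower F A A] [SMulCommClass F A A]
    (hC : Cls F A) {n : ℕ} (hs : ser F A n = ⊥)
    (hfg : ∃ (m : ℕ) (g : Fin m → A), Function.Surjective (FreeNonUnitalNonAssocAlgebra.lift F g)) :
    ∃ (B : Type) (_ : NonUnitalNonAssocRing B) (_ : Module F B) (_ : IsScalarTower F B B)
      (_ : SMulCommClass F B B), FiniteDimensional F B ∧ (Alt A → Alt B) ∧ (Jor A → Jor B) ∧
        (∀ f : FreeNonUnitalNonAssocAlgebra F ℕ, Id F B f → Id F A f) ∧
        ((∃ e : A, One e) → ∀ f : FreeNonUnitalNonAssocAlgebra F ℕ, Id F A f → Id F B f) := by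
  classical
  obtain ⟨m, g, hg⟩ := hfg
  by_cases hone : ∃ e : A, One e
  · obtain ⟨e, he⟩ := hone
    have hG : Gen F e g := fun N _ h2 h3 => top_of_surj hg N h2 h3
    obtain ⟨B, i1, i2, i3, i4, h1, h2, h3, _, h5⟩ := unital hp hC hs he hG
    exact ⟨B, i1, i2, i3, i4, h1, h2, h3, fun f => (h5 f).1, fun _ f => (h5 f).2⟩
  · let _ := uni_tower (F := F) (A := A)
    let _ := uni_smc (F := F) (A := A)
    obtain ⟨B, i1, i2, i3, i4, h1, h2, h3, _, h5⟩ := unital hp (uni_cls hC) (uni_ser_bot hs)
      uni_one (uni_gen hg)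
    refine ⟨B, i1, i2, i3, i4, h1, fun h => h2 (uni_alt h), fun h => h3 (uni_jor h), ?_,
      fun h => absurd h hone⟩
    intro f hf ψ
    have h6 := (h5 f).1 hf (fun i => Unitization.inr (ψ i))
    have h7 := lift_nat (Unitization.inrHom F F A) (fun x y => Unitization.inr_mul F x y) ψ f
    rw [show (fun i => (Unitization.inrHom F F A) (ψ i)) = fun i => Unitization.inr (ψ i) from rfl,
      h6] at h7
    exact Unitization.inr_injective (h7.trans (Unitization.inr_zero F).symm)

end Pool.Agent.Lib.LNA
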