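import Pool.Agent.Lib.LNA.JPow

/-!
# LNA.Quot: the class of algebras, quotient algebras
-/

set_option autoImplicit false
set_option linter.unusedSectionVars false

namespace Pool.Agent.Lib.LNA

/-- alternative algebras, and Jordan algebras over fields of characteristic not 2 -/
def Cls (F : Type*) [Field F] (R : Type*) [NonUnitalNonAssocRing R] : Prop :=
  Alt R ∨ ((2 : F) ≠ 0 ∧ Jor R)

section cls

variable {F : Type*} [Field F] {R : Type*} [NonUnitalNonAssocRing R] [Module F R]

theorem no2_of (h : (2 : F) ≠ 0) : No2 R := by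
  intro x hx
  rw [← two_smul F x] at hx
  exact (smul_eq_zero.1 hx).resolve_left h

theorem cls_ctr (h : Cls F R) {w : R} (h1 : ∀ x, cm w x = 0) (h2 : ∀ x y, as w x y = 0) :
    Ctr w := by
  rcases h with h | ⟨-, h⟩
  · exact ctr_alt h h1 h2
  · exact ctr_comm h.1 h2

theorem cls_nil_cm (h : Cls F R) {v : R} (h1 : ∀ a, Ctr (cm v a)) (a : R) :
    cm v a * (cm v a * cm v a) = 0 := by
  rcases h with h | ⟨-, h⟩
  · rw [nil_cm_alt h h1, mul_zero]
  · have : cm v a = 0 := by unfold cm; rw [h.1, sub_self]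
    rw [this, zero_mul]

theorem cls_nil_as (h : Cls F R) {v : R} (h1 : ∀ a, Ctr (cm v a)) (h2 : ∀ a b, Ctr (as v a b))
    (a b : R) : as v a b * (as v a b * as v a b) = 0 := by
  rcases h with h | ⟨h0, h⟩
  · rw [nil_as_alt h h1 h2, mul_zero]
  · exact nil_as_jor h (no2_of (F := F) h0) h2 a b

/-- transport along a surjective homomorphism -/
theorem cls_surj {S : Type*} [NonUnitalNonAssocRing S] (h : Cls F R) (f : R → S)
    (hf : Function.Surjective f) (hm : ∀ x y, f (x * y) = f x * f y) : Cls F S := by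
  rcases h with h | ⟨h0, h⟩
  · left
    intro x y
    obtain ⟨a, rfl⟩ := hf x
    obtain ⟨b, rfl⟩ := hf y
    constructor
    · rw [← hm, ← hm, ← hm, ← hm, (h a b).1]
    · rw [← hm, ← hm, ← hm, ← hm, (h a b).2]
  · right
    refine ⟨h0, ?_, ?_⟩
    · intro x y
      obtain ⟨a, rfl⟩ := hf x
      obtain ⟨b, rfl⟩ := hf y
      rw [← hm, ← hm, h.1]
    · intro x y
      obtain ⟨a, rfl⟩ := hf x
      obtain ⟨b, rfl⟩ := hf y
      rw [← hm, ← hm, ← hm, ← hm, ← hm, h.2 a b]

end cls

section quot

variable {F : Type*} [Field F] {R : Type*} [NonUnitalNonAssocRing R] [Module F R]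
  [IsScalarTower F R R] [SMulCommClass F R R]

/-- two-sided ideals -/
structure IsIdeal (W : Submodule F R) : Prop where
  left : ∀ a : R, ∀ w ∈ W, a * w ∈ W
  right : ∀ a : R, ∀ w ∈ W, w * a ∈ W

/-- left multiplication on the quotient -/
noncomputable def quotL (W : Submodule F R) (hW : IsIdeal W) : R →ₗ[F] Module.End F (R ⧸ W) where
  toFun a := W.mapQ W (LinearMap.mulLeft F a) (fun w hw => hW.left a w hw)
  map_add' a b := by
    refine Submodule.linearMap_qext _ (LinearMap.ext fun x => ?_)
    change (Submodule.Quotient.mk ((a + b) * x) : R ⧸ W) =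
      Submodule.Quotient.mk (a * x) + Submodule.Quotient.mk (b * x)
    rw [add_mul, Submodule.Quotient.mk_add]
  map_smul' c a := by
    refine Submodule.linearMap_qext _ (LinearMap.ext fun x => ?_)
    change (Submodule.Quotient.mk ((c • a) * x) : R ⧸ W) = c • Submodule.Quotient.mk (a * x)
    rw [smul_mul_assoc, Submodule.Quotient.mk_smul]

/-- the multiplication of the quotient -/
noncomputable def quotM (W : Submodule F R) (hW : IsIdeal W) :
    (R ⧸ W) →ₗ[F] Module.End F (R ⧸ W) :=
  W.liftQ (quotL W hW) (by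
    intro w hw
    rw [LinearMap.mem_ker]
    refine Submodule.linearMap_qext _ (LinearMap.ext fun x => ?_)
    change (Submodule.Quotient.mk (w * x) : R ⧸ W) = 0
    exact (Submodule.Quotient.mk_eq_zero W).2 (hW.right x w hw))

/-- the quotient algebra -/
noncomputable abbrev quotRing (W : Submodule F R) (hW : IsIdeal W) :
    NonUnitalNonAssocRing (R ⧸ W) :=
  { Submodule.Quotient.addCommGroup W with
    mul := fun a b => quotM W hW a b
    left_distrib := fun a b c => map_add (quotM W hW a) b c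
    right_distrib := fun a b c => by
      change quotM W hW (a + b) c = quotM W hW a c + quotM W hW b c
      rw [map_add]; rfl
    zero_mul := fun a => by
      change quotM W hW 0 a = 0
      rw [map_zero]; rfl
    mul_zero := fun a => map_zero (quotM W hW a) }

/-- existence of the quotient algebra -/
theorem exists_quot (W : Submodule F R) (hW : IsIdeal W) :
    letI := quotRing W hW
    IsScalarTower F (R ⧸ W) (R ⧸ W) ∧ SMulCommClass F (R ⧸ W) (R ⧸ W) ∧
      ∀ x y : R, W.mkQ (x * y) = W.mkQ x * W.mkQ y := by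
  let _ := quotRing W hW
  refine ⟨⟨?_⟩, ⟨?_⟩, ?_⟩
  · intro c x y
    change quotM W hW (c • x) y = c • quotM W hW x y
    rw [map_smul]; rfl
  · intro c x y
    change c • quotM W hW x y = quotM W hW x (c • y)
    rw [map_smul]
  · intro x y
    rfl

end quot

section serq

variable {F : Type*} [Field F] {R S : Type*} [NonUnitalNonAssocRing R] [Module F R]
  [NonUnitalNonAssocRing S] [Module F S]

theorem map_cm (f : R →ₗ[F] S) (hm : ∀ x y, f (x * y) = f x * f y) (x y : R) :
    f (cm x y) = cm (f x) (f y) := by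
  unfold cm; rw [map_sub, hm, hm]

theorem map_as (f : R →ₗ[F] S) (hm : ∀ x y, f (x * y) = f x * f y) (x y z : R) :
    f (as x y z) = as (f x) (f y) (f z) := by
  unfold as; rw [map_sub, hm, hm, hm, hm]

theorem ser_surj (f : R →ₗ[F] S) (hf : Function.Surjective f)
    (hm : ∀ x y, f (x * y) = f x * f y) (k : ℕ) : ser F S k ≤ (ser F R k).map f := by
  induction k with
  | zero =>
    intro x _
    obtain ⟨a, rfl⟩ := hf x
    exact ⟨a, Submodule.mem_top, rfl⟩
  | succ k ih =>
    refine Submodule.span_le.2 ?_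
    rintro w (⟨v, hv, a, rfl⟩ | ⟨v, hv, a, b, rfl⟩)
    · obtain ⟨v', hv', rfl⟩ := ih hv
      obtain ⟨a', rfl⟩ := hf a
      exact ⟨cm v' a', cm_mem hv' a', map_cm f hm v' a'⟩
    · obtain ⟨v', hv', rfl⟩ := ih hv
      obtain ⟨a', rfl⟩ := hf a
      obtain ⟨b', rfl⟩ := hf b
      exact ⟨as v' a' b', as_mem hv' a' b', map_as f hm v' a' b'⟩

theorem ser_map (f : R →ₗ[F] S) (hm : ∀ x y, f (x * y) = f x * f y) (k : ℕ) :
    (ser F R k).map f ≤ ser F S k := by
  induction k with
  | zero => exact le_top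
  | succ k ih =>
    rw [Submodule.map_le_iff_le_comap]
    refine Submodule.span_le.2 ?_
    rintro w (⟨v, hv, a, rfl⟩ | ⟨v, hv, a, b, rfl⟩)
    · change f (cm v a) ∈ ser F S (k + 1)
      rw [map_cm f hm]
      exact cm_mem (ih ⟨v, hv, rfl⟩) _
    · change f (as v a b) ∈ ser F S (k + 1)
      rw [map_as f hm]
      exact as_mem (ih ⟨v, hv, rfl⟩) _ _

end serq

end Pool.Agent.Lib.LNA
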