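import Pool.Agent.Lib.LNA.Jordan

/-!
# LNA.Ser: the lower series and powers
-/

set_option autoImplicit false
set_option linter.unusedSectionVars false

namespace Pool.Agent.Lib.LNA

/-- the lower series: `R`, `[R,R] + (R,R,R)`, ... -/
def ser (F : Type*) (R : Type*) [Field F] [NonUnitalNonAssocRing R] [Module F R] :
    ℕ → Submodule F R
  | 0 => ⊤
  | k + 1 => Submodule.span F
      ({w | ∃ v ∈ ser F R k, ∃ a, w = cm v a} ∪ {w | ∃ v ∈ ser F R k, ∃ a b, w = as v a b})

/-- `u` is a unit element -/
structure One {R : Type*} [NonUnitalNonAssocRing R] (u : R) : Prop where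
  left : ∀ x : R, u * x = x
  right : ∀ x : R, x * u = x

variable {F : Type*} [Field F] {R : Type*} [NonUnitalNonAssocRing R] [Module F R]
  [IsScalarTower F R R] [SMulCommClass F R R]

/-- left powers -/
noncomputable def pw (F : Type*) [Field F] {R : Type*} [NonUnitalNonAssocRing R] [Module F R]
    [SMulCommClass F R R] (u x : R) (k : ℕ) : R := ((LinearMap.mulLeft F x) ^ k) u

omit [IsScalarTower F R R] in
theorem pw_zero (u x : R) : pw F u x 0 = u := by simp [pw]

omit [IsScalarTower F R R] in
theorem pw_succ (u x : R) (k : ℕ) : pw F u x (k + 1) = x * pw F u x k := by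
  unfold pw
  rw [pow_succ', Module.End.mul_apply, LinearMap.mulLeft_apply]

omit [IsScalarTower F R R] [SMulCommClass F R R] in
theorem cm_mem {k : ℕ} {v : R} (hv : v ∈ ser F R k) (a : R) : cm v a ∈ ser F R (k + 1) :=
  Submodule.subset_span (Or.inl ⟨v, hv, a, rfl⟩)

omit [IsScalarTower F R R] [SMulCommClass F R R] in
theorem as_mem {k : ℕ} {v : R} (hv : v ∈ ser F R k) (a b : R) : as v a b ∈ ser F R (k + 1) :=
  Submodule.subset_span (Or.inr ⟨v, hv, a, b, rfl⟩)

omit [IsScalarTower F R R] [SMulCommClass F R R] in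
theorem ser_mono (k : ℕ) : ser F R (k + 1) ≤ ser F R k := by
  induction k with
  | zero => exact le_top
  | succ k ih =>
    refine Submodule.span_le.2 ?_
    rintro w (⟨v, hv, a, rfl⟩ | ⟨v, hv, a, b, rfl⟩)
    · exact cm_mem (ih hv) a
    · exact as_mem (ih hv) a b

omit [IsScalarTower F R R] [SMulCommClass F R R] in
theorem ser_anti {k l : ℕ} (h : k ≤ l) : ser F R l ≤ ser F R k := by
  induction h with
  | refl => exact le_rfl
  | step _ ih => exact le_trans (ser_mono _) ih

omit [IsScalarTower F R R] [SMulCommClass F R R] in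
theorem ser_bot {k l : ℕ} (h : k ≤ l) (h0 : ser F R k = ⊥) : ser F R l = ⊥ :=
  le_bot_iff.1 (h0 ▸ ser_anti h)

/-- Frobenius for commuting elements -/
theorem frob {E : Type*} [Ring E] {p : ℕ} (hp : p.Prime) (h0 : (p : E) = 0) {x y : E}
    (h : Commute x y) (n : ℕ) : (x + y) ^ p ^ n = x ^ p ^ n + y ^ p ^ n := by
  rw [h.add_pow_prime_pow_eq hp n, h0, zero_mul, zero_mul, zero_mul, add_zero]

theorem end_char {M : Type*} [AddCommGroup M] [Module F M] (p : ℕ) [CharP F p] :
    (p : Module.End F M) = 0 := by
  ext x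
  rw [Module.End.natCast_apply, ← Nat.cast_smul_eq_nsmul F p x, CharP.cast_eq_zero, zero_smul]
  rfl

section altpow

theorem as_pw_alt (h : Alt R) {u : R} (hu : One u) (x : R) (k : ℕ) :
    ∀ y, as x (pw F u x k) y = 0 := by
  induction k with
  | zero =>
    intro y
    rw [pw_zero]
    unfold as
    rw [hu.right, hu.left, sub_self]
  | succ k ih =>
    intro y
    rw [pw_succ, alt_mid h, ih, zero_mul]

theorem mulLeft_pw_alt (h : Alt R) {u : R} (hu : One u) (x : R) (k : ℕ) (y : R) :
    pw F u x k * y = ((LinearMap.mulLeft F x) ^ k) y := by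
  induction k with
  | zero => rw [pw_zero, hu.left, pow_zero, Module.End.one_apply]
  | succ k ih =>
    rw [pw_succ, pow_succ', Module.End.mul_apply, ← ih, LinearMap.mulLeft_apply,
      mul_assoc_of_as (as_pw_alt h hu x k y)]

theorem pw_succ_right_alt (h : Alt R) {u : R} (hu : One u) (x : R) (k : ℕ) :
    pw F u x (k + 1) = pw F u x k * x := by
  rw [mulLeft_pw_alt h hu]
  unfold pw
  rw [pow_succ, Module.End.mul_apply, LinearMap.mulLeft_apply, hu.right]

theorem mulRight_pw_alt (h : Alt R) {u : R} (hu : One u) (x : R) (k : ℕ) (y : R) :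
    y * pw F u x k = ((LinearMap.mulRight F x) ^ k) y := by
  induction k with
  | zero => rw [pw_zero, hu.right, pow_zero, Module.End.one_apply]
  | succ k ih =>
    have e : as y (pw F u x k) x = 0 := by
      rw [alt13 h, as_pw_alt h hu, neg_zero]
    rw [pw_succ_right_alt h hu, pow_succ', Module.End.mul_apply, ← ih, LinearMap.mulRight_apply,
      mul_assoc_of_as e]

theorem comm_lr (h : Alt R) (x : R) :
    Commute (LinearMap.mulLeft F x) (LinearMap.mulRight F x) := by
  ext y
  simp only [Module.End.mul_apply, LinearMap.mulLeft_apply, LinearMap.mulRight_apply]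
  exact (mul_assoc_of_as (alt_flex h x y)).symm

theorem ad_mem (x y : R) (k : ℕ) :
    ((LinearMap.mulLeft F x - LinearMap.mulRight F x) ^ k) y ∈ ser F R k := by
  induction k with
  | zero => exact Submodule.mem_top
  | succ k ih =>
    rw [pow_succ', Module.End.mul_apply, LinearMap.sub_apply, LinearMap.mulLeft_apply,
      LinearMap.mulRight_apply]
    have := (ser F R (k + 1)).neg_mem (cm_mem ih x)
    unfold cm at this
    rwa [neg_sub] at this

/-- large `q`-th powers commute with everything -/
theorem pw_comm_alt {p : ℕ} (hp : p.Prime) [CharP F p] (h : Alt R) {u : R} (hu : One u) {e : ℕ}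
    (hs : ser F R (p ^ e) = ⊥) (x y : R) :
    pw F u x (p ^ e) * y = y * pw F u x (p ^ e) := by
  have hc : Commute (LinearMap.mulLeft F x - LinearMap.mulRight F x) (LinearMap.mulRight F x) :=
    (comm_lr h x).sub_left (Commute.refl _)
  have e1 := frob hp (end_char (F := F) (M := R) p) hc e
  rw [sub_add_cancel] at e1
  have e2 := ad_mem (F := F) x y (p ^ e)
  rw [hs, Submodule.mem_bot] at e2
  rw [mulLeft_pw_alt h hu, mulRight_pw_alt h hu, e1, LinearMap.add_apply, e2, zero_add]

theorem as_pw_left_alt (h : Alt R) {u : R} (hu : One u) {x : R} (hx : ∀ y, x * y = y * x)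
    (y z : R) (k : ℕ) : as (pw F u x (k + 1)) y z
      = (k + 1) • ((LinearMap.mulLeft F x) ^ k) (as x y z) := by
  induction k with
  | zero => rw [pw_succ, pw_zero, hu.right]; simp
  | succ k ih =>
    have e1 : cm (pw F u x (k + 1)) x = 0 := by
      unfold cm; rw [hx, sub_self]
    have e2 : as (cm y z) (pw F u x (k + 1)) x = 0 := by
      rw [alt13 h, as_pw_alt h hu, neg_zero]
    have e3 := kf_eq h (pw F u x (k + 1)) x y z
    rw [e1, e2, as_zero_left, add_zero] at e3
    unfold kf at e3
    rw [← pw_succ_right_alt h hu, mulRight_pw_alt h hu x (k + 1) (as x y z)] at e3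
    have e4 : LinearMap.mulRight F x = LinearMap.mulLeft F x := by
      ext y
      simp only [LinearMap.mulLeft_apply, LinearMap.mulRight_apply]
      exact (hx y).symm
    rw [e4, ih, mul_smul_comm, sub_eq_zero, sub_eq_iff_eq_add] at e3
    rw [e3, add_smul (k + 1) 1, one_smul, pow_succ', Module.End.mul_apply, LinearMap.mulLeft_apply,
      add_comm]

/-- Frobenius powers of the identity plus a multiple of `u` -/
theorem pw_add_smul {p : ℕ} (hp : p.Prime) [CharP F p] {u : R} (hu : One u) (x : R) (c : F)
    (e : ℕ) : pw F u (x + c • u) (p ^ e) = pw F u x (p ^ e) + c ^ p ^ e • u := by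
  have e1 : LinearMap.mulLeft F (x + c • u) = LinearMap.mulLeft F x + c • (1 : Module.End F R) := by
    ext y
    simp only [LinearMap.mulLeft_apply, LinearMap.add_apply, LinearMap.smul_apply,
      Module.End.one_apply, add_mul, smul_mul_assoc, hu.left]
  have hc : Commute (LinearMap.mulLeft F x) (c • (1 : Module.End F R)) :=
    (Commute.one_right _).smul_right c
  unfold pw
  rw [e1, frob hp (end_char (F := F) (M := R) p) hc e, smul_pow, one_pow, LinearMap.add_apply,
    LinearMap.smul_apply, Module.End.one_apply]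

/-- in a Lie nilpotent alternative algebra large `p`-power powers are central -/
theorem ctr_pw_alt {p : ℕ} (hp : p.Prime) [CharP F p] (h : Alt R) {u : R} (hu : One u) {e : ℕ}
    (hs : ser F R (p ^ e) = ⊥) (x : R) : Ctr (pw F u x (p ^ (e + 1))) := by
  set X := pw F u x (p ^ e) with hX
  have hXc : ∀ y, X * y = y * X := pw_comm_alt hp h hu hs x
  have e0 : pw F u x (p ^ (e + 1)) = pw F u X p := by
    have : LinearMap.mulLeft F X = (LinearMap.mulLeft F x) ^ (p ^ e) := by
      ext y
      rw [LinearMap.mulLeft_apply, hX, mulLeft_pw_alt h hu]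
    unfold pw
    rw [this, ← pow_mul, pow_succ]
  rw [e0]
  have e4 : LinearMap.mulRight F X = LinearMap.mulLeft F X := by
    ext y
    simp only [LinearMap.mulLeft_apply, LinearMap.mulRight_apply]
    exact (hXc y).symm
  apply ctr_alt h
  · intro y
    unfold cm
    rw [mulLeft_pw_alt h hu, mulRight_pw_alt h hu, e4, sub_self]
  · intro y z
    obtain ⟨k, hk⟩ : ∃ k, p = k + 1 := ⟨p - 1, (Nat.sub_add_cancel hp.one_lt.le).symm⟩
    have e5 := as_pw_left_alt (F := F) h hu hXc y z k
    rw [← hk] at e5
    rw [e5, ← Nat.cast_smul_eq_nsmul F p, CharP.cast_eq_zero, zero_smul]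

end altpow

end Pool.Agent.Lib.LNA
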